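import Pool.Agent.MP_3b6db3_gt.H5.Fam

/-!
Corollaries: imaginary quadratic fields, unbounded degree, existence of the angles.
-/

open Set Real

namespace Pool.Agent.MP_3b6db3_gt.H5

theorem main {σ : ℂ} (h : σ ∈ AddSubsemigroup.closure {σ | Gen σ}) : Lay σ :=
  AddSubsemigroup.closure_induction (fun _ h => Gen.lay h) (fun _ _ _ _ => Lay.add) h

lemma lay_sec {n : ℕ} (hn : 3 ≤ n) {w : ℝ} (h : w * cos (π / n) = 1) : Lay (w * Complex.I) := by
  have := Gen.lay (Or.inl ⟨n, hn, rfl⟩)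
  rwa [eq_one_div_of_mul_eq_one_right h, Complex.ofReal_div, Complex.ofReal_one, div_div_eq_mul_div,
    div_one, mul_comm] at this

lemma lay_sqrt {d : ℕ} (hd : d ∈ ({2, 3, 5, 6} : Set ℕ)) :
    ∃ q : ℚ, 0 < q ∧ Lay ((q * √d : ℝ) * Complex.I) := by
  have s2 := Real.mul_self_sqrt (show (0 : ℝ) ≤ 2 by norm_num)
  have s3 := Real.mul_self_sqrt (show (0 : ℝ) ≤ 3 by norm_num)
  have s5 := Real.mul_self_sqrt (show (0 : ℝ) ≤ 5 by norm_num)
  have l2 : Lay ((√2 : ℝ) * Complex.I) :=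
    lay_sec (n := 4) (by norm_num) (by push_cast; rw [cos_pi_div_four]; linarith)
  rcases hd with rfl | rfl | rfl | rfl
  · exact ⟨1, one_pos, by simpa using l2⟩
  · exact ⟨2 / 3, by norm_num, lay_sec (n := 6) (by norm_num) (by
      push_cast; rw [cos_pi_div_six]; linarith)⟩
  · have l5 : Lay ((√5 - 1 : ℝ) * Complex.I) :=
      lay_sec (n := 5) (by norm_num) (by push_cast; rw [cos_pi_div_five]; linarith)
    have l1 : Lay ((2 : ℝ) * Complex.I) :=
      lay_sec (n := 3) (by norm_num) (by push_cast; rw [cos_pi_div_three]; linarith)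
    exact ⟨2, two_pos, by convert (l5.add l5).add l1 using 1; push_cast; ring⟩
  · have e : √6 = √2 * √3 := by rw [← Real.sqrt_mul (by norm_num)]; norm_num
    have l6 : Lay ((√6 - √2 : ℝ) * Complex.I) := lay_sec (n := 12) (by norm_num) (by
      push_cast
      rw [show π / 12 = π / 3 - π / 4 by ring, cos_sub, cos_pi_div_three, cos_pi_div_four,
        sin_pi_div_three, sin_pi_div_four, e]
      linear_combination (√3 * √3 - 1) / 4 * s2 + s3 / 2)
    exact ⟨1, one_pos, by convert l6.add l2 using 1; push_cast; ring⟩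

theorem quadratic {d : ℕ} (hd : d ∈ ({2, 3, 5, 6} : Set ℕ)) (x y : ℚ) (hy : 0 < y) :
    Packable (x + y * (√d : ℝ) * Complex.I) := by
  obtain ⟨q, hq, h⟩ := lay_sqrt hd
  have := h.packable (a := y / q) (b := x) (c := 0) (d := 1) (by simp; positivity)
  have hq' : (q : ℂ) ≠ 0 := by exact_mod_cast hq.ne'
  convert this using 1
  push_cast; field_simp; ring

open IntermediateField Polynomial in
theorem unbounded (D : ℕ) : ∃ τ : ℂ, 0 < τ.im ∧ IsAlgebraic ℚ τ ∧ Packable τ ∧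
    D ≤ (minpoly ℚ τ).natDegree := by
  obtain ⟨p, hp, pp⟩ := Nat.exists_infinite_primes (2 * D + 3)
  have hL := Gen.lay (Or.inl ⟨p, by omega, rfl⟩)
  set τ : ℂ := Complex.I / (cos (π / p) : ℝ) with hτ
  have hc : ((cos (π / p) : ℝ) : ℂ) ≠ 0 := fun h => by simpa [hτ, h] using hL.1
  have ha : IsAlgebraic ℚ τ := by
    refine IsAlgebraic.mul ⟨X ^ 2 + 1, Monic.ne_zero (by monicity!), by simp⟩ (IsAlgebraic.inv ?_)
    have := (Complex.isAlgebraic_cos_rat_mul_pi (1 / p)).extendScalars (S := ℚ)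
      (algebraMap ℤ ℚ).injective_int
    rwa [Complex.ofReal_cos, show ((π / p : ℝ) : ℂ) = (1 / p : ℚ) * π by push_cast; ring]
  refine ⟨τ, hL.1, ha, by simpa using hL.packable (a := 1) (b := 0) (c := 0) (d := 1) (by simp), ?_⟩
  set η : ℂ := Complex.exp (2 * π * Complex.I / p) with hη
  have h1 : (minpoly ℚ η).natDegree = p - 1 := by
    rw [← cyclotomic_eq_minpoly_rat (Complex.isPrimitiveRoot_exp p pp.ne_zero) pp.pos,
      natDegree_cyclotomic, Nat.totient_prime pp]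
  let t : ℚ⟮τ⟯ := AdjoinSimple.gen ℚ τ
  have hm : (X ^ 2 + C (4 * (t ^ 2)⁻¹ + 2) * X + 1 : ℚ⟮τ⟯[X]).Monic := by monicity!
  have hr : aeval η (X ^ 2 + C (4 * (t ^ 2)⁻¹ + 2) * X + 1 : ℚ⟮τ⟯[X]) = 0 := by
    have e1 : (τ ^ 2)⁻¹ = -Complex.cos (π / p) ^ 2 := by
      rw [hτ, div_pow, Complex.I_sq]; push_cast; field_simp
    have e2 : η = Complex.exp (π / p * Complex.I) ^ 2 := by
      rw [← Complex.exp_nat_mul, hη]; congr 1; push_cast; ring
    have e3 := Complex.sin_sq_add_cos_sq (π / p)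
    simp only [map_add, map_mul, map_pow, map_inv₀, map_one, aeval_X, aeval_C, map_ofNat, t,
      AdjoinSimple.algebraMap_gen, e1, e2, Complex.exp_mul_I]
    generalize Complex.cos (π / p) = c at *
    generalize Complex.sin (π / p) = s at *
    linear_combination (s ^ 2 * (Complex.I ^ 2 - 1) * s ^ 2 + 2 * c ^ 2 * s ^ 2 + 2 * s ^ 2 +
      4 * c * s ^ 3 * Complex.I) * Complex.I_sq +
      (s ^ 2 - 3 * c ^ 2 - 1 - 4 * c * s * Complex.I) * e3
  have hi : IsIntegral ℚ⟮τ⟯ η := ⟨_, hm, hr⟩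
  have := adjoin.finiteDimensional ha.isIntegral
  have := adjoin.finiteDimensional hi
  have : Module.Finite ℚ ℚ⟮τ⟯⟮η⟯ := Module.Finite.trans ℚ⟮τ⟯ _
  have h2 := minpoly.natDegree_le (A := ℚ) (AdjoinSimple.gen ℚ⟮τ⟯ η)
  rw [← minpoly.algebraMap_eq (B' := ℂ) (algebraMap ℚ⟮τ⟯⟮η⟯ ℂ).injective,
    AdjoinSimple.algebraMap_gen, h1, ← Module.finrank_mul_finrank ℚ ℚ⟮τ⟯, adjoin.finrank hi,
    adjoin.finrank ha.isIntegral] at h2
  have h3 : (minpoly ℚ⟮τ⟯ η).natDegree ≤ 2 :=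
    (natDegree_le_of_dvd (minpoly.dvd _ _ hr) hm.ne_zero).trans (by compute_degree)
  have := Nat.mul_le_mul_left (minpoly ℚ τ).natDegree h3
  omega

theorem angles (k : ℕ) (hk : 1 ≤ k) :
    (∃ φ : ℝ, 0 < φ ∧ (k + 1) * φ < π ∧ cos φ ^ 2 + cos ((k + 1) * φ) = 0) ∧
    ∃ φ : ℝ, 0 < φ ∧ (k + 1) * φ < π ∧ cos (2 * φ) + cos φ * cos (k * φ) = 0 := by
  have k1 : (1 : ℝ) ≤ k := by exact_mod_cast hk
  obtain ⟨b, b0, hb⟩ : ∃ b, 0 < b ∧ (k + 1) * b = π :=
    ⟨π / (k + 1), by positivity, by field_simp⟩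
  have hs : 0 < sin b := sin_pos_of_pos_of_lt_pi b0 (by nlinarith)
  have key : ∀ f : ℝ → ℝ, Continuous f → 0 < f 0 → f b < 0 →
      ∃ φ : ℝ, 0 < φ ∧ (k + 1) * φ < π ∧ f φ = 0 := fun f hf h0 h1 => by
    obtain ⟨φ, h, e⟩ := intermediate_value_Ioo' b0.le hf.continuousOn ⟨h1, h0⟩
    exact ⟨φ, h.1, by nlinarith [h.2], e⟩
  refine ⟨key _ (by fun_prop) (by simp) ?_, key _ (by fun_prop) (by simp) ?_⟩
  · rw [hb, cos_pi]; nlinarith [sin_sq_add_cos_sq b]
  · rw [show k * b = π - b by linarith, cos_pi_sub, cos_two_mul]; nlinarith [sin_sq_add_cos_sq b]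

theorem generic : ∃ τ : ℂ, 0 < τ.im ∧ Packable τ ∧
    ∀ a b c : ℚ, a * ‖τ‖ ^ 2 + b * τ.re + c = 0 → a = 0 ∧ b = 0 ∧ c = 0 := by
  obtain ⟨φ, h0, h1, h⟩ := (angles 3 (by norm_num)).2
  have hc : 0 < cos φ := cos_pos_of_mem_Ioo ⟨by linarith [pi_pos], by push_cast at h1; linarith⟩
  obtain ⟨u, hu, u0⟩ : ∃ u, (1 / cos φ) ^ 2 = u ∧ 0 < u := ⟨_, rfl, by positivity⟩
  have e : u ^ 2 + u - 4 = 0 := by
    rw [Nat.cast_ofNat, cos_two_mul, cos_three_mul] at h
    rw [← hu]; field_simp; linear_combination -h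
  have u1 : 1 < u := by nlinarith
  have ir : ∀ α β : ℚ, α * u + β = 0 → α = 0 := fun α β h => by
    by_contra hα
    have hα' : (α : ℝ) ≠ 0 := by exact_mod_cast hα
    refine (by norm_num : Nat.Prime 17).irrational_sqrt ⟨1 - 2 * β / α, ?_⟩
    have : (1 - 2 * β / α : ℝ) = 2 * u + 1 := by field_simp; linarith
    push_cast
    rw [this, eq_comm, Real.sqrt_eq_iff_mul_self_eq (by norm_num) (by linarith)]
    linarith
  obtain ⟨y, y0, hy⟩ : ∃ y, 0 < y ∧ y ^ 2 = 5 * u / 4 - 1 :=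
    ⟨√(5 * u / 4 - 1), Real.sqrt_pos.2 (by linarith), Real.sq_sqrt (by linarith)⟩
  have l1 : Lay ⟨1 - u / 2, y⟩ := Gen.lay (Or.inr ⟨3, φ, by norm_num, h0, h1, Or.inr ⟨h, by
    rw [← pow_left_inj₀ (norm_nonneg _) zero_le_one two_ne_zero, Complex.sq_norm,
      Complex.normSq_apply]
    linear_combination hy + e / 4, y0, Or.inl (by
    rw [← pow_left_inj₀ (norm_nonneg _) (by positivity) two_ne_zero, Complex.sq_norm,
      Complex.normSq_apply, hu]
    simp; linear_combination hy + e / 4)⟩⟩)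
  have l2 : Lay ((2 : ℝ) * Complex.I) :=
    lay_sec (n := 3) (by norm_num) (by push_cast; rw [cos_pi_div_three]; linarith)
  refine ⟨_, (l1.add l2).1, by
    simpa using (l1.add l2).packable (a := 1) (b := 0) (c := 0) (d := 1) (by simp), ?_⟩
  intro a b c h
  rw [Complex.sq_norm, Complex.normSq_apply] at h
  simp at h
  have h' : 4 * a * y = b / 2 * u - (5 * a + b + c) := by linear_combination h - a * hy - a * e / 4
  have h2 : ((20 * a ^ 2 + b ^ 2 / 4 + b * (5 * a + b + c) : ℚ) : ℝ) * u +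
      (-(16 * a ^ 2 + b ^ 2 + (5 * a + b + c) ^ 2) : ℚ) = 0 := by
    push_cast
    linear_combination (4 * a * y + (b / 2 * u - (5 * a + b + c))) * h' - 16 * a ^ 2 * hy +
      b ^ 2 / 4 * e
  rw [ir _ _ h2, Rat.cast_zero, zero_mul, zero_add, Rat.cast_eq_zero] at h2
  have a0 : a = 0 := by nlinarith [sq_nonneg a, sq_nonneg b, sq_nonneg (5 * a + b + c)]
  have b0 : b = 0 := by nlinarith [sq_nonneg a, sq_nonneg b, sq_nonneg (5 * a + b + c)]
  exact ⟨a0, b0, by rw [a0, b0] at h2; simpa using h2⟩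

end Pool.Agent.MP_3b6db3_gt.H5
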