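import Mathlib

/-!
Definitions used in the statement.
-/

namespace Pool.Agent.MP_3b6db3_gt.H5

/-- The torus `ℂ / (ℤ τ + ℤ)` carries a circle packing all of whose gaps are triangular.
This is the conclusion of the frozen statement `S13041`, word for word. -/
def Packable (τ : ℂ) : Prop :=
  ∃ (n : ℕ) (c : Fin n → ℂ) (r : Fin n → ℝ),
    (∀ i, 0 < r i) ∧
    (∀ p q : Fin n × ℤ × ℤ, p ≠ q →
      r p.1 + r q.1 ≤
        dist (c p.1 + (p.2.1 : ℂ) * τ + (p.2.2 : ℂ))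
             (c q.1 + (q.2.1 : ℂ) * τ + (q.2.2 : ℂ))) ∧
    (∃ x : ℂ, x ∈ (⋃ p : Fin n × ℤ × ℤ,
        Metric.closedBall (c p.1 + (p.2.1 : ℂ) * τ + (p.2.2 : ℂ)) (r p.1))ᶜ) ∧
    (∀ x ∈ (⋃ p : Fin n × ℤ × ℤ,
        Metric.closedBall (c p.1 + (p.2.1 : ℂ) * τ + (p.2.2 : ℂ)) (r p.1))ᶜ,
      Set.ncard {q : Fin n × ℤ × ℤ |
        (Metric.closedBall (c q.1 + (q.2.1 : ℂ) * τ + (q.2.2 : ℂ)) (r q.1) ∩
          closure (connectedComponentIn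
            (⋃ p : Fin n × ℤ × ℤ,
              Metric.closedBall (c p.1 + (p.2.1 : ℂ) * τ + (p.2.2 : ℂ)) (r p.1))ᶜ x)).Nonempty}
        = 3)

/-- Three explicit families of complex numbers. -/
def Gen (σ : ℂ) : Prop :=
  (∃ n : ℕ, 3 ≤ n ∧ σ = Complex.I / (Real.cos (Real.pi / n) : ℝ)) ∨
  ∃ (k : ℕ) (φ : ℝ), 1 ≤ k ∧ 0 < φ ∧ (k + 1) * φ < Real.pi ∧
    ((Real.cos φ ^ 2 + Real.cos ((k + 1) * φ) = 0 ∧ σ = Complex.I / (Real.cos φ : ℝ)) ∨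
      (Real.cos (2 * φ) + Real.cos φ * Real.cos (k * φ) = 0 ∧ ‖σ‖ = 1 ∧ 0 < σ.im ∧
        (‖σ - 1‖ = 1 / Real.cos φ ∨ ‖σ + 1‖ = 1 / Real.cos φ)))

end Pool.Agent.MP_3b6db3_gt.H5
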