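import Pool.Agent.MP_3b6db3_gt.H5.Glue
import Pool.Agent.MP_3b6db3_gt.H5.Defs

/-!
From doubly periodic packings of the plane to packable tori.
-/

open Set Metric

namespace Pool.Agent.MP_3b6db3_gt.H5

theorem Good.packable {D : Set Disc} (hD : Good D) {τ : ℂ} (h0 : 0 < τ.im) (h1 : 1 ∈ Per D)
    (hτ : τ ∈ Per D) (ho : ∃ z, Out D z) : Packable τ := by
  have hper : ∀ (m n : ℤ) (d : Disc), (d.1 + m * τ + n, d.2) ∈ D ↔ d ∈ D := fun m n d => by
    have := (Per D).add_mem ((Per D).zsmul_mem hτ m) ((Per D).zsmul_mem h1 n) d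
    rwa [zsmul_one, zsmul_eq_mul, ← add_assoc] at this
  let s : ℂ → ℝ := fun z => z.im / τ.im
  let t : ℂ → ℝ := fun z => z.re - s z * τ.re
  have hs : ∀ z (m n : ℤ), s (z + m * τ + n) = s z + m := fun z m n => by
    simp only [s]; simp; field_simp
  have ht : ∀ z (m n : ℤ), t (z + m * τ + n) = t z + n := fun z m n => by
    simp only [t, hs]; simp; ring
  let F : Set Disc := {d ∈ D | ⌊s d.1⌋ = 0 ∧ ⌊t d.1⌋ = 0}
  have hF : F.Finite := (hD.toPk.finite (1 + |τ.re| + τ.im)).subset fun d ⟨hd, h2, h3⟩ => by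
    rw [Int.floor_eq_zero_iff] at h2 h3
    have e1 : d.1.im = s d.1 * τ.im := by simp only [s]; field_simp
    have e2 : d.1.re = t d.1 + s d.1 * τ.re := by simp only [t]; ring
    have e3 : |s d.1 * τ.re| ≤ |τ.re| := by
      rw [abs_mul, abs_of_nonneg h2.1]; exact mul_le_of_le_one_left (abs_nonneg _) h2.2.le
    refine ⟨hd, ?_, ?_⟩
    · rw [e2]; linarith [abs_add_le (t d.1) (s d.1 * τ.re), abs_of_nonneg h3.1, h3.2]
    · rw [e1, abs_of_nonneg (mul_nonneg h2.1 h0.le)]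
      linarith [abs_nonneg τ.re, mul_le_of_le_one_left h0.le h2.2.le]
  obtain ⟨n, f, finj, hf⟩ := hF.fin_param
  have hfF : ∀ i, f i ∈ F := fun i => hf ▸ mem_range_self i
  let φ : Fin n × ℤ × ℤ → Disc := fun p => ((f p.1).1 + p.2.1 * τ + p.2.2, (f p.1).2)
  have φD : ∀ p, φ p ∈ D := fun p => (hper _ _ _).2 (hfF p.1).1
  have φinj : Function.Injective φ := by
    rintro ⟨i, a, b⟩ ⟨j, a', b'⟩ h
    have e1 := congrArg (fun d : Disc => ⌊s d.1⌋) h
    have e2 := congrArg (fun d : Disc => ⌊t d.1⌋) h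
    simp only [φ, hs, ht, Int.floor_add_intCast, (hfF _).2.1, (hfF _).2.2, zero_add] at e1 e2
    subst e1 e2
    simp only [φ, Prod.mk.injEq, add_left_inj] at h
    rw [finj (Prod.ext h.1 h.2)]
  have φsurj : ∀ d ∈ D, ∃ p, φ p = d := fun d hd => by
    obtain ⟨i, hi⟩ : (d.1 + (-⌊s d.1⌋ : ℤ) * τ + (-⌊t d.1⌋ : ℤ), d.2) ∈ range f := by
      rw [hf]
      refine ⟨(hper _ _ _).2 hd, ?_, ?_⟩ <;> simp only [hs, ht, Int.floor_add_intCast] <;> ring
    exact ⟨(i, ⌊s d.1⌋, ⌊t d.1⌋), Prod.ext (by simp only [φ, hi]; push_cast; ring)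
      (by simp only [φ, hi])⟩
  have hU : (⋃ p : Fin n × ℤ × ℤ, closedBall ((f p.1).1 + (p.2.1 : ℂ) * τ + (p.2.2 : ℂ))
      (f p.1).2)ᶜ = {z | Out D z} := by
    ext z
    simp only [mem_compl_iff, mem_iUnion, mem_closedBall, not_exists, not_le, mem_ofPred_eq]
    refine ⟨fun h d hd => ?_, fun h p => h _ (φD p)⟩
    obtain ⟨p, rfl⟩ := φsurj d hd
    exact h p
  refine ⟨n, fun i => (f i).1, fun i => (f i).2, fun i => hD.pos _ (hfF i).1,
    fun p q h => hD.toPk.le (φD p) (φD q) (φinj.ne h), ?_, ?_⟩ <;> rw [hU]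
  · exact ho
  · intro x hx
    rw [← hD.touch hx, ← ncard_preimage_of_injective_subset_range φinj
      fun d hd => φsurj d hd.1]
    exact congrArg _ (Set.ext fun p => (and_iff_right (φD p)).symm)

theorem Lay.packable {σ : ℂ} (hσ : Lay σ) {a b c d : ℚ} (h : 0 < a * d - b * c) :
    Packable ((a * σ + b) / (c * σ + d)) := by
  obtain ⟨D, h1, h2, h3, h4⟩ := hσ.glue hσ
  have h' : (0 : ℝ) < a * d - b * c := by exact_mod_cast h
  have hne : (c * σ + d : ℂ) ≠ 0 := fun e => by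
    have e1 := congrArg Complex.im e
    have e2 := congrArg Complex.re e
    simp [hσ.1.ne'] at e1
    simp [e1] at e2
    simp [e1, e2] at h
  obtain ⟨N, hN, key⟩ : ∃ N : ℕ, 0 < N ∧ ∀ x ∈ ({a, b, c, d} : Set ℚ), ∃ m : ℤ, N * x = m := by
    refine ⟨a.den * b.den * c.den * d.den, by positivity, ?_⟩
    rintro x (rfl | rfl | rfl | rfl)
    · exact ⟨x.num * b.den * c.den * d.den, by push_cast; rw [← x.mul_den_eq_num]; ring⟩
    · exact ⟨x.num * a.den * c.den * d.den, by push_cast; rw [← x.mul_den_eq_num]; ring⟩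
    · exact ⟨x.num * a.den * b.den * d.den, by push_cast; rw [← x.mul_den_eq_num]; ring⟩
    · exact ⟨x.num * a.den * b.den * c.den, by push_cast; rw [← x.mul_den_eq_num]; ring⟩
  have mem : ∀ x ∈ ({a, b, c, d} : Set ℚ), ∀ y ∈ ({a, b, c, d} : Set ℚ),
      (2 * N * (x * σ + y) : ℂ) ∈ Per D := fun x hx y hy => by
    obtain ⟨m, hm⟩ := key x hx
    obtain ⟨l, hl⟩ := key y hy
    have e1 : (N : ℂ) * x = m := by exact_mod_cast hm
    have e2 : (N : ℂ) * y = l := by exact_mod_cast hl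
    convert (Per D).add_mem ((Per D).zsmul_mem h3 m) ((Per D).zsmul_mem h2 (2 * l)) using 1
    simp only [zsmul_eq_mul]; push_cast; linear_combination 2 * σ * e1 + 2 * e2
  have hN' : (N : ℂ) ≠ 0 := by exact_mod_cast hN.ne'
  have hα : (2 * N * (c * σ + d) : ℂ)⁻¹ ≠ 0 := by simp [hN', hne]
  refine (h1.sim hα 0).packable ?_ ?_ ?_ ?_
  · have e : ((a * σ + b) / (c * σ + d) : ℂ).im =
        (a * d - b * c) * σ.im / Complex.normSq (c * σ + d) := by
      rw [Complex.div_im]; simp; ring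
    rw [e]
    exact div_pos (mul_pos h' hσ.1) (Complex.normSq_pos.2 hne)
  · convert Per.sim (mem c (by simp) d (by simp)) _ 0 using 1; field_simp
  · convert Per.sim (mem a (by simp) b (by simp)) _ 0 using 1; field_simp
  · obtain ⟨z, hz⟩ := h1.toPk.exists_out h4 (by simpa using (h2 _).2 h4)
    exact ⟨_, (out_sim hα 0).2 hz⟩

end Pool.Agent.MP_3b6db3_gt.H5
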