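import Pool.Agent.MP_3b6db3_gt.H5.Zig
import Pool.Agent.MP_3b6db3_gt.H5.Pack

/-!
The three explicit families of layers.
-/

open Set Metric Real

namespace Pool.Agent.MP_3b6db3_gt.H5

section Seq

variable {p : ℤ → ℝ} {K : ℤ} {T : ℝ}

lemma per_mul (hp : ∀ i, p (i + K) = p i + T) (i n : ℤ) : p (i + K * n) = p i + n * T := by
  induction n using Int.induction_on with
  | zero => simp
  | succ n ih => rw [mul_add, mul_one, ← add_assoc, hp, ih]; push_cast; ring
  | pred n ih =>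
    have := hp (i + K * (-n - 1))
    rw [show i + K * (-n - 1) + K = i + K * -n by ring, ih] at this
    push_cast at this ⊢; linarith

lemma per_loc (hm : StrictMono p) (hT : 0 < T) (hp : ∀ i, p (i + K) = p i + T) (x : ℝ) :
    ∃ i, p i ≤ x ∧ x < p (i + 1) := by
  obtain ⟨i, h1, h2⟩ := Int.exists_greatest_of_bdd (P := fun i => p i ≤ x)
    ⟨0 + K * ⌈(x - p 0) / T⌉, fun i hi => hm.le_iff_le.1 (by
      rw [per_mul hp]; linarith [(div_le_iff₀ hT).1 (Int.le_ceil ((x - p 0) / T))])⟩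
    ⟨0 + K * ⌊(x - p 0) / T⌋, by
      rw [per_mul hp]; linarith [(le_div_iff₀ hT).1 (Int.floor_le ((x - p 0) / T))]⟩
  exact ⟨i, h1, not_le.1 fun h => by have := h2 _ h; omega⟩

lemma divmod (hK : 0 < K) (i : ℤ) : ∃ r n, 0 ≤ r ∧ r < K ∧ i = r + K * n :=
  ⟨i % K, i / K, Int.emod_nonneg _ hK.ne', Int.emod_lt_of_pos _ hK, (Int.emod_add_mul_ediv i K).symm⟩

lemma per_fin (hK : 0 < K) (hp : ∀ i, p (i + K) = p i + T) :
    (range fun i => p (i + 1) - p i).Finite := by
  refine ((finite_Ico 0 K).image fun i => p (i + 1) - p i).subset ?_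
  rintro _ ⟨i, rfl⟩
  obtain ⟨r, n, h1, h2, rfl⟩ := divmod hK i
  exact ⟨r, ⟨h1, h2⟩, by simp only [add_right_comm r (K * n) 1, per_mul hp]; ring⟩

lemma extend (hK : 0 < K) {t : ℤ → ℝ} (h1 : ∀ l, 0 ≤ l → l < K → t l < t (l + 1))
    (h2 : t K = t 0 + T) : ∃ p : ℤ → ℝ, StrictMono p ∧ (∀ i, p (i + K) = p i + T) ∧
      ∀ l, 0 ≤ l → l ≤ K → p l = t l := by
  have key : ∀ r n, 0 ≤ r → r ≤ K →
      t ((r + K * n) % K) + ((r + K * n) / K : ℤ) * T = t r + n * T := fun r n a b => by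
    rw [Int.add_mul_emod_self_left, Int.add_mul_ediv_left _ _ hK.ne']
    rcases b.eq_or_lt with rfl | b
    · rw [Int.emod_self, Int.ediv_self hK.ne', h2]; push_cast; ring
    · rw [Int.emod_eq_of_lt a b, Int.ediv_eq_zero_of_lt a b, zero_add]
  refine ⟨fun i => t (i % K) + (i / K : ℤ) * T, strictMono_int_of_lt_succ fun i => ?_,
    fun i => ?_, fun l a b => by simpa using key l 0 a b⟩ <;>
  obtain ⟨r, n, a, b, rfl⟩ := divmod hK i
  · simp only [add_right_comm r (K * n) 1, key r n a b.le, key (r + 1) n (by omega) b]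
    linarith [h1 r a b]
  · simp only [add_assoc r, ← mul_add_one, key r _ a b.le]; push_cast; ring

end Seq

/-- A row of discs of diameter one and a second row. -/
noncomputable def rowZ {p : ℤ → ℝ} {K k : ℤ} {W : ℝ} (hW : 0 < W) (hm : StrictMono p)
    (hK : 0 < K) (hp : ∀ i, p (i + K) = p i + 1) (h0 : p 0 ≤ 0) (h1 : 1 ≤ p (k + 1))
    (ht : ∀ i, 0 ≤ i → i ≤ k → p (i + 1) * (1 - p i) = W ^ 2) (y : ℝ) (hy : (W - y) ^ 2 = W ^ 2) :
    Zig :=
  have tan : ∀ j i : ℤ, (j : ℝ) < p (i + 1) → p i < j + 1 →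
      (j + 1 - p i) * (p (i + 1) - j) = W ^ 2 := fun j i a b => by
    obtain ⟨i, rfl⟩ : ∃ l, i = l + K * j := ⟨i - K * j, by ring⟩
    rw [add_right_comm, per_mul hp] at a
    rw [per_mul hp] at b
    rw [add_right_comm i, per_mul hp, per_mul hp, ← ht i
      (by have := hm.lt_iff_lt.1 (show p 0 < p (i + 1) by linarith); omega)
      (by have := hm.lt_iff_lt.1 (show p i < p (k + 1) by linarith); omega)]
    ring
  { p := fun j => j - 1 / 2
    q := fun i => p i - 1 / 2
    y := y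
    y' := W
    W := W
    hW := hW
    hy := hy
    mp := fun a b h => by simpa using h
    mq := fun a b h => by simpa using hm h
    lp := per_loc (K := 1) (fun a b h => by simpa using h) one_pos fun i => by push_cast; ring
    lq := per_loc (K := K) (fun a b h => by simpa using hm h) one_pos fun i => by rw [hp]; ring
    fp := per_fin (p := fun j => j - 1 / 2) (T := 1) one_pos fun i => by push_cast; ring
    fq := per_fin (p := fun i => p i - 1 / 2) (T := 1) hK fun i => by rw [hp]; ring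
    tan := fun j i a b => by
      push_cast at b ⊢
      linear_combination tan j i (by linarith) (by linarith)
    sp := fun j i _ => by push_cast; ring
    sq := fun j i h => by
      have e : p i = j := by linarith
      have a := tan j i (e ▸ hm (lt_add_one i)) (by linarith)
      have b := tan (j - 1) (i - 1) (by push_cast; rw [sub_add_cancel]; linarith)
        (by push_cast; linarith [hm (sub_one_lt i)])
      rw [sub_add_cancel] at b
      push_cast at b
      rw [e] at a b ⊢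
      linear_combination a - b }

theorem lay_row {p : ℤ → ℝ} {K k : ℤ} {W : ℝ} (hW : 0 < W) (hm : StrictMono p)
    (hK : 0 < K) (hp : ∀ i, p (i + K) = p i + 1) (h0 : p 0 ≤ 0) (h1 : 1 ≤ p (k + 1))
    (ht : ∀ i, 0 ≤ i → i ≤ k → p (i + 1) * (1 - p i) = W ^ 2) : Lay ⟨0, 2 * W⟩ := by
  let X := rowZ hW hm hK hp h0 h1 ht 0 (by ring)
  let Y := rowZ hW hm hK hp h0 h1 ht (2 * W) (by ring)
  have hP : ∀ y hy, (1 : ℂ) ∈ Per (rowZ hW hm hK hp h0 h1 ht y hy).D := fun y hy =>
    Zig.mem_Per (K := 1) (N := K) (T := 1) _ (fun i => by simp only [rowZ]; push_cast; ring)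
      fun i => by simp only [rowZ, hp]; ring
  have hS : Strip (X.D ∪ Y.D) 0 (2 * W) :=
    (X.strip hW).union (h := W) (Y.swap_D ▸ Y.swap.strip (show W < 2 * W by linarith)) hW.le
      (by linarith) (X.swap.wall fun i => ⟨X.R_mem i, Y.R_mem i⟩)
  have hG := Strip.per (a := 0) (ω := ⟨0, 2 * W⟩) (by simpa using hS) (by simpa using hW)
    (X.wall fun i => ⟨Or.inl (X.L_mem i), Or.inr (mem_congr (z := (Y.L i).1)
      (w := (X.L i).1 + ⟨0, 2 * W⟩) (Y.L_mem i)
      (Complex.ext (by simp [X, Y, rowZ, Zig.L]) (by simp [X, Y, rowZ, Zig.L])))⟩)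
  have h4 : ((0 : ℂ), (1 / 2 : ℝ)) ∈ per ⟨0, 2 * W⟩ (X.D ∪ Y.D) := subset_per _ _ (Or.inl (by
    convert X.L_mem 0 using 1
    exact Prod.ext (Complex.ext (by simp [X, rowZ, Zig.L]; ring) rfl)
      (by simp [X, rowZ, Zig.L])))
  exact ⟨by simpa using hW, _, hG, Per.per (Per.union (hP _ _) (hP _ _)) _, h4,
    by simpa using (mem_per _ _ _).2 h4⟩

lemma lay_of_per {D : Set Disc} (hD : Good D) {u v c : ℂ} (hu : u ∈ Per D) (hv : v ∈ Per D)
    (h1 : ‖u‖ = 1) (hc : (c, (1 / 2 : ℝ)) ∈ D) (h0 : 0 < (starRingEnd ℂ u * v).im) :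
    Lay (starRingEnd ℂ u * v) := by
  have hne : starRingEnd ℂ u ≠ 0 := by rw [map_ne_zero, ← norm_ne_zero_iff, h1]; simp
  have h4 : ((0 : ℂ), (1 / 2 : ℝ)) ∈ sim (starRingEnd ℂ u) (-(starRingEnd ℂ u * c)) '' D :=
    ⟨_, hc, by simp [sim, h1]⟩
  refine ⟨h0, _, hD.sim hne _, ?_, h4, by simpa using (Per.sim hv _ _ _).2 h4⟩
  convert Per.sim hu (starRingEnd ℂ u) _ using 1
  rw [Complex.conj_mul', h1]; simp

theorem lay_rhomb {p : ℤ → ℝ} {K : ℤ} {W T : ℝ} (hW : 0 < W) (hm : StrictMono p)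
    (hK : 0 < K) (hp : ∀ i, p (i + K) = p i + T) (h0 : p 0 = -T / 2) (h1 : p 1 = 1 - T / 2)
    (T0 : 0 < T) (T2 : T < 2) (ht : ∀ i, 0 ≤ i → i ≤ K → p (i + 1) * (1 - p i) = W ^ 2) :
    Lay ⟨2 * W ^ 2 - 1, W * T⟩ ∧ Lay ⟨1 - 2 * W ^ 2, W * T⟩ := by
  have hK0 : p K = T / 2 := by have := hp 0; rw [zero_add] at this; linarith
  have hK1 : p (K + 1) = 1 + T / 2 := by rw [add_comm, hp]; linarith
  have hWT : W ^ 2 = 1 - T ^ 2 / 4 := by rw [← ht 0 le_rfl hK.le, zero_add, h0, h1]; ring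
  have lt : ∀ {i j}, p i < p j → i < j := fun h => hm.lt_iff_lt.1 h
  have nc : ∀ i j, p i ≠ p j + T / 2 := fun i j h => by
    obtain ⟨r, n, a, b, rfl⟩ := divmod hK j
    obtain ⟨i, rfl⟩ : ∃ l, i = l + K * n := ⟨i - K * n, by ring⟩
    rw [per_mul hp, per_mul hp] at h
    rcases a.eq_or_lt with rfl | a
    · have := lt (show p 0 < p i by linarith)
      have := lt (show p i < p 1 by linarith)
      omega
    · have := lt (show p K < p i by linarith [hm.monotone (show 1 ≤ r by omega)])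
      have := lt (show p i < p (K + 1) by linarith [hm b])
      omega
  let X : Zig :=
    { p := p
      q := fun j => p j + T / 2
      y := 0
      y' := W
      W := W
      hW := hW
      hy := by ring
      mp := hm
      mq := fun a b h => by simpa using hm h
      lp := per_loc hm T0 hp
      lq := per_loc (K := K) (fun a b h => by simpa using hm h) T0 fun i => by rw [hp]; ring
      fp := per_fin hK hp
      fq := per_fin (p := fun i => p i + T / 2) (T := T) hK fun i => by rw [hp]; ring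
      tan := fun i j h h' => by
        obtain ⟨r, n, a, b, rfl⟩ := divmod hK j
        obtain ⟨i, rfl⟩ : ∃ l, i = l + K * n := ⟨i - K * n, by ring⟩
        simp only [add_right_comm _ (K * n) 1, per_mul hp] at h h' ⊢
        rcases a.eq_or_lt with rfl | a
        · rw [zero_add] at h ⊢
          have := lt (show p 0 < p (i + 1) by linarith)
          have := lt (show p i < p (K + 1) by linarith)
          rw [← ht i (by omega) (by omega), h0, h1]; ring
        · have := lt (show p K < p (i + 1) by linarith [hm.monotone (show 1 ≤ r by omega)])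
          have := lt (show p i < p (K + 1) by linarith [hm.monotone (show r + 1 ≤ K by omega)])
          obtain rfl : i = K := by omega
          rw [← ht r a.le b.le, hK0, hK1]; ring
      sp := fun i j h => (nc i j h).elim
      sq := fun i j h => (nc i j h).elim }
  have hG := Strip.per (a := 0) (ω := ⟨T / 2, W⟩) (by simpa using X.strip hW) hW
    (X.wall fun i => ⟨X.L_mem i, by
      convert X.R_mem i using 1
      exact Prod.ext (Complex.ext (by simp [X, Zig.L, Zig.swap]; ring)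
        (by simp [X, Zig.L, Zig.swap])) (by simp [X, Zig.L, Zig.swap])⟩)
  have p1 := mem_per ⟨T / 2, W⟩ X.D
  have p2 : (T : ℂ) ∈ Per (per ⟨T / 2, W⟩ X.D) :=
    Per.per (X.mem_Per (N := K) hp fun i => by simp only [X, hp]; ring) _
  have hc : ((X.L 0).1, (1 / 2 : ℝ)) ∈ per ⟨T / 2, W⟩ X.D := subset_per _ _ (by
    convert X.L_mem 0 using 1
    exact Prod.ext rfl (by simp only [X, Zig.L, zero_add, h0, h1]; ring))
  have hn : ∀ z : ℂ, z.re ^ 2 + z.im ^ 2 = 1 → ‖z‖ = 1 := fun z h => by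
    rw [← pow_left_inj₀ (norm_nonneg _) zero_le_one two_ne_zero, Complex.sq_norm,
      Complex.normSq_apply]
    linarith
  have e1 : starRingEnd ℂ ⟨T / 2, W⟩ * (⟨T / 2, W⟩ - T) = ⟨2 * W ^ 2 - 1, W * T⟩ :=
    Complex.ext (by simp; linarith) (by simp; ring)
  have e2 : starRingEnd ℂ (T - ⟨T / 2, W⟩) * ⟨T / 2, W⟩ = ⟨1 - 2 * W ^ 2, W * T⟩ :=
    Complex.ext (by simp; linarith) (by simp; ring)
  exact ⟨e1 ▸ lay_of_per hG p1 (sub_mem p1 p2) (hn _ (by simp; linarith)) hc
      (e1 ▸ mul_pos hW T0),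
    e2 ▸ lay_of_per hG (sub_mem p2 p1) p1 (hn _ (by simp; linarith)) hc (e2 ▸ mul_pos hW T0)⟩

section Fan

variable {k : ℕ} {φ : ℝ}

/-- The sine sequence of a fan. -/
noncomputable def sn (k : ℕ) (φ : ℝ) (l : ℤ) : ℝ := sin ((π - (k + 3) * φ) / 2 + l * φ)

/-- The points of tangency of a fan. -/
noncomputable def tn (k : ℕ) (φ : ℝ) (l : ℤ) : ℝ := 1 / (2 * cos φ) * sn k φ l / sn k φ (l + 1)

lemma sn_prod (l : ℤ) : sn k φ l * sn k φ (l + 1 + 1) = sn k φ (l + 1) ^ 2 - sin φ ^ 2 := by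
  obtain ⟨A, hA⟩ : ∃ A, (π - (k + 3) * φ) / 2 + l * φ = A - φ := ⟨_, (add_sub_cancel_right _ φ).symm⟩
  simp only [sn]; push_cast
  rw [hA, show (π - (k + 3) * φ) / 2 + (l + 1 + 1) * φ = A + φ by linarith,
    show (π - (k + 3) * φ) / 2 + (l + 1) * φ = A by linarith, sin_sub, sin_add]
  linear_combination sin A ^ 2 * sin_sq_add_cos_sq φ - sin φ ^ 2 * sin_sq_add_cos_sq A

lemma sn_rec (l : ℤ) : sn k φ (l + 1 + 1) = 2 * cos φ * sn k φ (l + 1) - sn k φ l := by
  obtain ⟨A, hA⟩ : ∃ A, (π - (k + 3) * φ) / 2 + l * φ = A - φ := ⟨_, (add_sub_cancel_right _ φ).symm⟩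
  simp only [sn]; push_cast
  rw [hA, show (π - (k + 3) * φ) / 2 + (l + 1 + 1) * φ = A + φ by linarith,
    show (π - (k + 3) * φ) / 2 + (l + 1) * φ = A by linarith, sin_sub, sin_add]
  ring

lemma sn_symm {l m : ℤ} (h : l + m = k + 3) : sn k φ l = sn k φ m := by
  have h' : (l : ℝ) + m = k + 3 := by exact_mod_cast h
  rw [sn, sn, ← sin_pi_sub]; congr 1; linear_combination -φ * h'

lemma sn_sq (l : ℤ) : 2 * sn k φ l ^ 2 - 1 = cos ((k + 3 - 2 * l) * φ) := by
  rw [show (k + 3 - 2 * l) * φ = π - 2 * ((π - (k + 3) * φ) / 2 + l * φ) by ring, cos_pi_sub,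
    cos_two_mul, sn]
  linear_combination 2 * sin_sq_add_cos_sq ((π - (k + 3) * φ) / 2 + l * φ)

variable (h0 : 0 < φ) (h1 : (k + 1) * φ < π) (hc : 0 < cos φ)
include h0 h1

lemma sn_pos {l : ℤ} (a : 1 ≤ l) (b : l ≤ k + 2) : 0 < sn k φ l := by
  have a' : (1 : ℝ) ≤ l := by exact_mod_cast a
  have b' : (l : ℝ) ≤ k + 2 := by exact_mod_cast b
  exact sin_pos_of_pos_of_lt_pi (by nlinarith) (by nlinarith)

include hc

lemma one_sub_tn {l : ℤ} (a : 0 ≤ l) (b : l ≤ k + 1) :
    1 - tn k φ l = 1 / (2 * cos φ) * sn k φ (l + 1 + 1) / sn k φ (l + 1) := by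
  have := (sn_pos h0 h1 (l := l + 1) (by omega) (by omega)).ne'
  rw [tn, sn_rec]; field_simp

lemma tn_rec {l : ℤ} (a : 0 ≤ l) (b : l ≤ k) :
    tn k φ (l + 1) * (1 - tn k φ l) = (1 / (2 * cos φ)) ^ 2 := by
  have := (sn_pos h0 h1 (l := l + 1) (by omega) (by omega)).ne'
  have := (sn_pos h0 h1 (l := l + 1 + 1) (by omega) (by omega)).ne'
  rw [one_sub_tn h0 h1 hc a (by omega), tn]; field_simp

lemma tn_lt {l : ℤ} (a : 0 ≤ l) (b : l ≤ k) : tn k φ l < tn k φ (l + 1) := by
  have s1 := sn_pos h0 h1 (l := l + 1) (by omega) (by omega)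
  have s2 := sn_pos h0 h1 (l := l + 1 + 1) (by omega) (by omega)
  have s3 : 0 < sin φ := sin_pos_of_pos_of_lt_pi h0 (by
    nlinarith [Nat.cast_nonneg (α := ℝ) k])
  rw [tn, tn, mul_div_assoc, mul_div_assoc]
  refine mul_lt_mul_of_pos_left ?_ (by positivity)
  rw [div_lt_div_iff₀ s1 s2, sn_prod]
  nlinarith

lemma tn_symm {l m : ℤ} (a : 0 ≤ l) (b : l ≤ k + 1) (h : l + m = k + 1) :
    tn k φ m = 1 - tn k φ l := by
  rw [one_sub_tn h0 h1 hc a b, tn, sn_symm (l := m) (m := l + 1 + 1) (by omega),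
    sn_symm (l := m + 1) (m := l + 1) (by omega)]

lemma tn_one_pos : 0 < tn k φ 1 :=
  div_pos (mul_pos (by positivity) (sn_pos h0 h1 le_rfl (by omega)))
    (sn_pos h0 h1 (by omega) (by omega))

end Fan

lemma I_div (c : ℝ) : Complex.I / (c : ℝ) = ⟨0, 2 * (1 / (2 * c))⟩ := by
  rw [div_eq_mul_inv, ← Complex.ofReal_inv]
  exact Complex.ext (by simp) (by simp; ring)

theorem Gen.lay {σ : ℂ} (h : Gen σ) : Lay σ := by
  rcases h with ⟨n, hn, rfl⟩ | ⟨k, φ, hk, h0, h1, h⟩
  · obtain ⟨k, rfl⟩ := Nat.exists_eq_add_of_le' hn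
    have a : (0 : ℝ) < (k + 3 : ℕ) := by positivity
    have e : ((k : ℝ) + 3) * (π / (k + 3 : ℕ)) = π := by push_cast; field_simp
    generalize π / (k + 3 : ℕ) = φ at e
    have k0 := Nat.cast_nonneg (α := ℝ) k
    have h0 : 0 < φ := by nlinarith [pi_pos]
    have h1 : (k + 1) * φ < π := by nlinarith
    have hc : 0 < cos φ := cos_pos_of_mem_Ioo ⟨by linarith [pi_pos], by nlinarith⟩
    have t0 : tn k φ 0 = 0 := by simp [tn, sn, e]
    have t1 := tn_symm h0 h1 hc (l := 0) (m := k + 1) le_rfl (by omega) (by omega)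
    obtain ⟨p, hm, hp, ht⟩ := extend (K := k + 1) (T := 1) (t := tn k φ) (by omega)
      (fun l a b => tn_lt h0 h1 hc a (by omega)) (by rw [t1, t0]; ring)
    rw [I_div]
    exact lay_row (k := k) (W := 1 / (2 * cos φ)) (by positivity) hm (by omega) hp (by rw [ht 0 le_rfl (by omega), t0])
      (by rw [ht _ (by omega) le_rfl, t1, t0]; simp) fun i a b => by
        rw [ht _ (by omega) (by omega), ht _ a (by omega), tn_rec h0 h1 hc a b]
  have k1 : (1 : ℝ) ≤ k := by exact_mod_cast hk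
  have hc : 0 < cos φ := cos_pos_of_mem_Ioo ⟨by linarith [pi_pos], by nlinarith⟩
  have t1 := tn_symm h0 h1 hc (l := 0) (m := k + 1) le_rfl (by omega) (by omega)
  have t2 := tn_symm h0 h1 hc (l := 1) (m := k) (by omega) (by omega) (by omega)
  have t3 := tn_one_pos h0 h1 hc
  have s1 := (sn_pos h0 h1 (l := 1) (by omega) (by omega)).ne'
  have s2 := (sn_pos h0 h1 (l := 2) (by omega) (by omega)).ne'
  have q0 := sn_prod (k := k) (φ := φ) 0
  have q1 := sn_prod (k := k) (φ := φ) 1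
  have r1 := sn_sq (k := k) (φ := φ) 1
  have r2 := sn_sq (k := k) (φ := φ) 2
  norm_num at q0 q1 r1 r2
  rw [show (k + 3 - 2 : ℝ) = k + 1 by ring] at r1
  have fin : ∀ {p : ℤ → ℝ} {T : ℝ}, (∀ i, p (i + k) = p i + T) →
      (∀ l : ℤ, 0 ≤ l → l ≤ k → p l = tn k φ l) → tn k φ 1 + T = tn k φ (k + 1) →
      ∀ i : ℤ, 0 ≤ i → i ≤ k → p (i + 1) * (1 - p i) = (1 / (2 * cos φ)) ^ 2 := by
    intro p T hp ht e i a b
    rw [← tn_rec h0 h1 hc a b, ht i a b]
    rcases b.eq_or_lt with rfl | b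
    · rw [add_comm, hp, ht 1 (by omega) (by omega), e, add_comm]
    · rw [ht _ (by omega) b]
  rcases h with ⟨h, rfl⟩ | ⟨h, n1, i0, n2⟩
  · have t0 : tn k φ 0 = -tn k φ 1 := by
      simp only [tn]; norm_num; field_simp
      linear_combination q0 + r1 + h - sin_sq_add_cos_sq φ
    obtain ⟨p, hm, hp, ht⟩ := extend (K := k) (T := 1) (t := tn k φ) (by omega)
      (fun l a b => tn_lt h0 h1 hc a b.le) (by rw [t2, t0]; ring)
    rw [I_div]
    exact lay_row (k := k) (W := 1 / (2 * cos φ)) (by positivity) hm (by omega) hp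
      (by rw [ht 0 le_rfl (by omega)]; linarith)
      (by rw [add_comm, hp, ht 1 (by omega) (by omega)]; linarith)
      (fin hp ht (by rw [t1, t0]; ring))
  · have t4 := one_sub_tn h0 h1 hc (l := 1) (by omega) (by omega)
    have t5 : 0 < 1 - tn k φ 1 := t4 ▸ div_pos (mul_pos (by positivity)
      (sn_pos h0 h1 (by omega) (by omega))) (sn_pos h0 h1 (by omega) (by omega))
    have t0 : tn k φ 0 = -(1 - tn k φ 1) := by
      rw [show (k + 3 - 4 : ℝ) * φ = k * φ - φ by ring, cos_sub] at r2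
      rw [add_mul, one_mul, cos_add] at r1
      rw [cos_two_mul] at h
      rw [t4, tn]; norm_num; field_simp
      linear_combination q0 + q1 + (r1 + r2) / 2 + h - 2 * sin_sq_add_cos_sq φ
    obtain ⟨p, hm, hp, ht⟩ := extend (K := k) (T := 2 * (1 - tn k φ 1)) (t := tn k φ) (by omega)
      (fun l a b => tn_lt h0 h1 hc a b.le) (by rw [t2, t0]; ring)
    have key := lay_rhomb (W := 1 / (2 * cos φ)) (by positivity) hm (by omega) hp
      (by rw [ht 0 le_rfl (by omega), t0]; ring) (by rw [ht 1 (by omega) (by omega)]; ring)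
      (by linarith) (by linarith) (fin hp ht (by rw [t1, t0]; ring))
    have hW := tn_rec h0 h1 hc (l := 0) le_rfl (by omega)
    rw [zero_add, t0] at hW
    have hW2 : 1 / cos φ = 2 * (1 / (2 * cos φ)) := by field_simp
    have W0 : 0 < 1 / (2 * cos φ) := by positivity
    rw [hW2] at n2
    generalize 1 / (2 * cos φ) = W at *
    generalize tn k φ 1 = t at *
    have n3 := congrArg (· ^ 2) n1
    simp only [Complex.sq_norm, Complex.normSq_apply] at n3
    have im : σ.re ^ 2 = (1 - 2 * W ^ 2) ^ 2 → σ.im = W * (2 * (1 - t)) := fun e => by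
      refine (pow_left_inj₀ i0.le (by positivity) two_ne_zero).1 ?_
      linear_combination n3 - e + 4 * W ^ 2 * hW
    rcases n2 with n2 | n2 <;> replace n2 := congrArg (· ^ 2) n2 <;>
      simp only [Complex.sq_norm, Complex.normSq_apply] at n2 <;> simp at n2
    · have re : σ.re = 1 - 2 * W ^ 2 := by linear_combination (n3 - n2) / 2
      convert key.2 using 1
      exact Complex.ext re (im (by rw [re]))
    · have re : σ.re = 2 * W ^ 2 - 1 := by linear_combination (n2 - n3) / 2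
      convert key.1 using 1
      exact Complex.ext re (im (by rw [re]; ring))

end Pool.Agent.MP_3b6db3_gt.H5
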