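import Mathlib

/-!
Disc packings of the plane whose centres are triangulated by mutually tangent triples:
every gap touches exactly three discs.
-/

open Set Metric

namespace Pool.Agent.MP_3b6db3_gt.H5

/-- A disc: centre and radius. -/
abbrev Disc := ℂ × ℝ

/-- External tangency. -/
def Tan (d e : Disc) : Prop := dist d.1 e.1 = d.2 + e.2

/-- `z` lies in the triangle with vertices `a b c`. -/
def Tri (a b c z : ℂ) : Prop :=
  ∃ l m n : ℝ, 0 ≤ l ∧ 0 ≤ m ∧ 0 ≤ n ∧ l + m + n = 1 ∧ z = l * a + m * b + n * c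

/-- A packing with finitely many radii. -/
structure Pk (D : Set Disc) : Prop where
  pos : ∀ d ∈ D, 0 < d.2
  fin : (Prod.snd '' D).Finite
  sep : ∀ d ∈ D, ∀ e ∈ D, dist d.1 e.1 < d.2 + e.2 → d = e

/-- `z` lies in a triangle of centres of mutually tangent discs containing no other centre. -/
def Cov (D : Set Disc) (z : ℂ) : Prop :=
  ∃ a ∈ D, ∃ b ∈ D, ∃ c ∈ D, Tan a b ∧ Tan b c ∧ Tan c a ∧ Tri a.1 b.1 c.1 z ∧
    ∀ d ∈ D, Tri a.1 b.1 c.1 d.1 → d = a ∨ d = b ∨ d = c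

/-- `z` lies outside all closed discs. -/
def Out (D : Set Disc) (z : ℂ) : Prop := ∀ d ∈ D, d.2 < dist z d.1

/-- A packing all of whose gaps are triangular. -/
structure Good (D : Set Disc) : Prop extends Pk D where
  cov : ∀ z, Out D z → Cov D z

lemma Tan.symm {a b : Disc} (h : Tan a b) : Tan b a := by
  rw [Tan, dist_comm, add_comm]; exact h

lemma Tan.ne {a b : Disc} (h : Tan a b) (ha : 0 < a.2) : a ≠ b := by
  rintro rfl
  rw [Tan, dist_self] at h; linarith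

lemma dist_sq (z w : ℂ) : dist z w ^ 2 = (z.re - w.re) ^ 2 + (z.im - w.im) ^ 2 := by
  rw [Complex.dist_eq, Complex.sq_norm, Complex.normSq_apply]; simp [sq]

lemma Tan.sq {a b : Disc} (h : Tan a b) :
    (a.1.re - b.1.re) ^ 2 + (a.1.im - b.1.im) ^ 2 = (a.2 + b.2) ^ 2 := by
  rw [← dist_sq, h]

lemma tan_of_sq {a b : Disc} (h0 : 0 ≤ a.2 + b.2)
    (h : (a.1.re - b.1.re) ^ 2 + (a.1.im - b.1.im) ^ 2 = (a.2 + b.2) ^ 2) : Tan a b := by
  rw [← dist_sq] at h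
  exact (pow_left_inj₀ dist_nonneg h0 two_ne_zero).1 h

lemma Tri.rot {a b c z : ℂ} (h : Tri a b c z) : Tri b c a z := by
  obtain ⟨l, m, n, h1, h2, h3, h4, rfl⟩ := h
  exact ⟨m, n, l, h2, h3, h1, by linarith, by ring⟩

lemma Tri.swap {a b c z : ℂ} (h : Tri a b c z) : Tri b a c z := by
  obtain ⟨l, m, n, h1, h2, h3, h4, rfl⟩ := h
  exact ⟨m, l, n, h2, h1, h3, by linarith, by ring⟩

lemma Tri.mix {a b c x y : ℂ} (hx : Tri a b c x) (hy : Tri a b c y) {t : ℝ} (h0 : 0 ≤ t)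
    (h1 : t ≤ 1) : Tri a b c ((1 - t : ℝ) * x + t * y) := by
  obtain ⟨l, m, n, h1, h2, h3, h4, rfl⟩ := hx
  obtain ⟨l', m', n', h1', h2', h3', h4', rfl⟩ := hy
  have := sub_nonneg.2 ‹t ≤ 1›
  refine ⟨(1 - t) * l + t * l', (1 - t) * m + t * m', (1 - t) * n + t * n', by positivity,
    by positivity, by positivity, by linear_combination (1 - t) * h4 + t * h4', ?_⟩
  push_cast; ring

/-- The point of tangency. -/
noncomputable def tp (a b : Disc) : ℂ :=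
  (b.2 / (a.2 + b.2) : ℝ) * a.1 + (a.2 / (a.2 + b.2) : ℝ) * b.1

/-- A disc missing two tangent discs stays away from their point of tangency. -/
lemma stewart {a b d : Disc} (h : Tan a b) (ha : 0 < a.2) (hb : 0 < b.2) (hd : 0 < d.2)
    (h1 : d.2 + a.2 ≤ dist d.1 a.1) (h2 : d.2 + b.2 ≤ dist d.1 b.1) :
    d.2 ^ 2 + 4 * a.2 * b.2 / (a.2 + b.2) * d.2 ≤ dist (tp a b) d.1 ^ 2 := by
  have e1 := pow_le_pow_left₀ (by positivity) h1 2
  have e2 := pow_le_pow_left₀ (by positivity) h2 2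
  have e3 := h.sq
  rw [dist_sq] at e1 e2 ⊢
  obtain ⟨s, hs, hs1, hs2⟩ : ∃ s : ℝ, a.2 / (a.2 + b.2) = s ∧ b.2 / (a.2 + b.2) = 1 - s ∧
      a.2 = s * (a.2 + b.2) := ⟨_, rfl, by field_simp; ring, by field_simp⟩
  have hs0 : 0 ≤ s := hs ▸ by positivity
  have hs3 : 0 ≤ 1 - s := hs1 ▸ by positivity
  have e4 : 4 * a.2 * b.2 / (a.2 + b.2) = 4 * (s * b.2) := by rw [← hs]; ring
  have hb2 : b.2 = (1 - s) * (a.2 + b.2) := by linarith
  simp only [tp, hs, hs1, e4, Complex.add_re, Complex.add_im, Complex.re_ofReal_mul,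
    Complex.im_ofReal_mul]
  have e5 := mul_le_mul_of_nonneg_left e1 hs3
  have e6 := mul_le_mul_of_nonneg_left e2 hs0
  have e7 : (1 - s) * a.2 = s * b.2 := by linarith
  have e8 : (1 - s) * a.2 ^ 2 + s * b.2 ^ 2 = s * (1 - s) * (a.2 + b.2) ^ 2 := by
    generalize a.2 + b.2 = t at hs2 hb2
    rw [hs2, hb2]; ring
  linear_combination e5 + e6 - 2 * d.2 * e7 - e8 + s * (1 - s) * e3

lemma edge_dist {a b : Disc} (h : Tan a b) {l m : ℝ} (hl : 0 ≤ l) (hm : 0 ≤ m) (e : l + m = 1) :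
    dist (l * a.1 + m * b.1 : ℂ) a.1 = m * (a.2 + b.2) ∧
      dist (l * a.1 + m * b.1 : ℂ) b.1 = l * (a.2 + b.2) := by
  have e' : (l : ℂ) + m = 1 := by exact_mod_cast e
  rw [← h]
  simp only [Complex.dist_eq]
  rw [show (l * a.1 + m * b.1 - a.1 : ℂ) = -(m * (a.1 - b.1)) by linear_combination a.1 * e',
    show (l * a.1 + m * b.1 - b.1 : ℂ) = l * (a.1 - b.1) by linear_combination b.1 * e']
  simp [abs_of_nonneg, hl, hm]

lemma tp_dist {a b : Disc} (h : Tan a b) (ha : 0 < a.2) (hb : 0 < b.2) :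
    dist (tp a b) a.1 = a.2 ∧ dist (tp a b) b.1 = b.2 := by
  have := edge_dist h (l := b.2 / (a.2 + b.2)) (m := a.2 / (a.2 + b.2)) (by positivity)
    (by positivity) (by field_simp; ring)
  rwa [div_mul_cancel₀ _ (by positivity), div_mul_cancel₀ _ (by positivity)] at this

variable {D : Set Disc}

lemma Pk.le (hD : Pk D) {d e : Disc} (hd : d ∈ D) (he : e ∈ D) (h : d ≠ e) :
    d.2 + e.2 ≤ dist d.1 e.1 := not_lt.1 fun h' => h (hD.sep d hd e he h')

lemma Pk.eq_of (hD : Pk D) {d e : Disc} (hd : d ∈ D) (he : e ∈ D) {z : ℂ}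
    (h1 : dist z d.1 ≤ d.2) (h2 : dist z e.1 < e.2) : d = e :=
  hD.sep d hd e he (by linarith [dist_triangle_left d.1 e.1 z])

/-- A closed disc that meets the segment between two tangent discs is one of them. -/
lemma Pk.edge (hD : Pk D) {a b d : Disc} (ha : a ∈ D) (hb : b ∈ D) (hd : d ∈ D) (h : Tan a b)
    {l m : ℝ} (hl : 0 ≤ l) (hm : 0 ≤ m) (e : l + m = 1)
    (hz : dist (l * a.1 + m * b.1 : ℂ) d.1 ≤ d.2) : d = a ∨ d = b := by
  obtain ⟨e1, e2⟩ := edge_dist h hl hm e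
  have pa := hD.pos a ha
  have pb := hD.pos b hb
  have pd := hD.pos d hd
  by_contra hc
  push Not at hc
  have h1 : a.2 ≤ m * (a.2 + b.2) := not_lt.1 fun h' => hc.1 (hD.eq_of hd ha hz (e1 ▸ h'))
  have h2 : b.2 ≤ l * (a.2 + b.2) := not_lt.1 fun h' => hc.2 (hD.eq_of hd hb hz (e2 ▸ h'))
  have h3 : l * (a.2 + b.2) + m * (a.2 + b.2) = a.2 + b.2 := by rw [← add_mul, e, one_mul]
  have h4 : l = b.2 / (a.2 + b.2) := by rw [eq_div_iff (by positivity)]; linarith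
  have h5 : m = a.2 / (a.2 + b.2) := by rw [eq_div_iff (by positivity)]; linarith
  have h6 := stewart h pa pb pd (hD.le hd ha hc.1) (hD.le hd hb hc.2)
  rw [tp, ← h4, ← h5] at h6
  have h7 := pow_le_pow_left₀ dist_nonneg hz 2
  have : 0 < 4 * a.2 * b.2 / (a.2 + b.2) * d.2 := by positivity
  linarith

/-- Twice the signed area. -/
def cr (a b c : ℂ) : ℝ := (b.re - a.re) * (c.im - a.im) - (b.im - a.im) * (c.re - a.re)

lemma cr_ne {a b c : Disc} (h1 : Tan a b) (h2 : Tan b c) (h3 : Tan c a) (ha : 0 < a.2)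
    (hb : 0 < b.2) (hc : 0 < c.2) : cr a.1 b.1 c.1 ≠ 0 := by
  intro h
  have e : cr a.1 b.1 c.1 ^ 2 = 4 * (a.2 * b.2 * c.2 * (a.2 + b.2 + c.2)) := by
    have e1 := h1.sq
    have e2 := h2.sq
    have e3 := h3.sq
    have e4 : 2 * ((b.1.re - a.1.re) * (c.1.re - a.1.re) + (b.1.im - a.1.im) * (c.1.im - a.1.im))
        = (a.2 + b.2) ^ 2 + (c.2 + a.2) ^ 2 - (b.2 + c.2) ^ 2 := by linear_combination e1 + e3 - e2
    have e5 : 4 * cr a.1 b.1 c.1 ^ 2 = 4 * ((a.2 + b.2) ^ 2 * (c.2 + a.2) ^ 2) -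
        ((a.2 + b.2) ^ 2 + (c.2 + a.2) ^ 2 - (b.2 + c.2) ^ 2) ^ 2 := by
      rw [← e4, ← e1, ← e3, cr]; ring
    linarith
  rw [h] at e
  have : 0 < a.2 * b.2 * c.2 * (a.2 + b.2 + c.2) := by positivity
  linarith

/-- The least barycentric coordinate. -/
noncomputable def mu (a b c z : ℂ) : ℝ :=
  min (cr z b c / cr a b c) (min (cr a z c / cr a b c) (cr a b z / cr a b c))

lemma continuous_mu (a b c : ℂ) : Continuous (mu a b c) := by
  unfold mu cr; fun_prop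

lemma bary {a b c : ℂ} (h : cr a b c ≠ 0) (z : ℂ) :
    cr z b c / cr a b c + cr a z c / cr a b c + cr a b z / cr a b c = 1 ∧
    z = (cr z b c / cr a b c : ℝ) * a + (cr a z c / cr a b c : ℝ) * b +
      (cr a b z / cr a b c : ℝ) * c := by
  refine ⟨by field_simp; unfold cr; ring, Complex.ext ?_ ?_⟩ <;>
    simp only [Complex.add_re, Complex.add_im, Complex.re_ofReal_mul, Complex.im_ofReal_mul] <;>
    field_simp <;> unfold cr <;> ring

lemma tri_iff {a b c : ℂ} (h : cr a b c ≠ 0) {z : ℂ} : Tri a b c z ↔ 0 ≤ mu a b c z := by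
  simp only [mu, le_min_iff]
  refine ⟨?_, fun h' => ⟨_, _, _, h'.1, h'.2.1, h'.2.2, (bary h z).1, (bary h z).2⟩⟩
  rintro ⟨l, m, n, h1, h2, h3, h4, rfl⟩
  obtain rfl : l = 1 - m - n := by linarith
  refine ⟨h1.trans_eq ?_, h2.trans_eq ?_, h3.trans_eq ?_⟩ <;> rw [eq_div_iff h] <;>
    simp only [cr, Complex.add_re, Complex.add_im, Complex.re_ofReal_mul,
      Complex.im_ofReal_mul] <;> ring

/-- Points with a vanishing barycentric coordinate lie on an edge. -/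
lemma on_edge {a b c z : ℂ} (h : cr a b c ≠ 0) (hz : mu a b c z = 0) :
    ∃ l m : ℝ, 0 ≤ l ∧ 0 ≤ m ∧ l + m = 1 ∧
      (z = l * a + m * b ∨ z = l * b + m * c ∨ z = l * c + m * a) := by
  have h0 := hz.ge
  obtain ⟨e1, e2⟩ := bary h z
  simp only [mu, le_min_iff] at h0
  unfold mu at hz
  generalize cr z b c / cr a b c = l at *
  generalize cr a z c / cr a b c = m at *
  generalize cr a b z / cr a b c = n at *
  rcases min_eq_iff.1 hz with ⟨rfl, -⟩ | ⟨h', -⟩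
  · exact ⟨m, n, h0.2.1, h0.2.2, by linarith, Or.inr (Or.inl (by rw [e2]; simp))⟩
  rcases min_eq_iff.1 h' with ⟨rfl, -⟩ | ⟨rfl, -⟩
  · exact ⟨n, l, h0.2.2, h0.1, by linarith, Or.inr (Or.inr (by rw [e2]; simp [add_comm]))⟩
  · exact ⟨l, m, h0.1, h0.2.1, by linarith, Or.inl (by rw [e2]; simp)⟩

section Triple

variable (hD : Pk D) {a b c : Disc} (ha : a ∈ D) (hb : b ∈ D) (hc : c ∈ D) (h1 : Tan a b)
  (h2 : Tan b c) (h3 : Tan c a)
include hD ha hb hc h1 h2 h3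

lemma Pk.cr_ne : cr a.1 b.1 c.1 ≠ 0 :=
  H5.cr_ne h1 h2 h3 (hD.pos a ha) (hD.pos b hb) (hD.pos c hc)

lemma Pk.bdry {z : ℂ} (hz : mu a.1 b.1 c.1 z = 0) {d : Disc} (hd : d ∈ D)
    (h : dist z d.1 ≤ d.2) : d = a ∨ d = b ∨ d = c := by
  obtain ⟨l, m, hl, hm, e, rfl | rfl | rfl⟩ := on_edge (hD.cr_ne ha hb hc h1 h2 h3) hz
  · have := hD.edge ha hb hd h1 hl hm e h; tauto
  · have := hD.edge hb hc hd h2 hl hm e h; tauto
  · have := hD.edge hc ha hd h3 hl hm e h; tauto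

lemma Pk.bdry_in {z : ℂ} (hz : mu a.1 b.1 c.1 z = 0) : ¬ Out D z := by
  intro ho
  have key : ∀ {u v : Disc}, u ∈ D → v ∈ D → Tan u v → ∀ {l m : ℝ}, 0 ≤ l → 0 ≤ m → l + m = 1 →
      ¬ Out D (l * u.1 + m * v.1) := fun {u v} hu hv h {l m} hl hm e ho => by
    obtain ⟨e1, e2⟩ := edge_dist h hl hm e
    have := ho u hu
    have := ho v hv
    have : l * (u.2 + v.2) + m * (u.2 + v.2) = u.2 + v.2 := by rw [← add_mul, e, one_mul]
    linarith
  obtain ⟨l, m, hl, hm, e, rfl | rfl | rfl⟩ := on_edge (hD.cr_ne ha hb hc h1 h2 h3) hz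
  exacts [key ha hb h1 hl hm e ho, key hb hc h2 hl hm e ho, key hc ha h3 hl hm e ho]

/-- Other discs miss an empty triangle. -/
lemma Pk.miss {d : Disc} (hd : d ∈ D) (he : ¬ Tri a.1 b.1 c.1 d.1) {z : ℂ}
    (hz : Tri a.1 b.1 c.1 z) (h : dist z d.1 ≤ d.2) : d = a ∨ d = b ∨ d = c := by
  have hne := hD.cr_ne ha hb hc h1 h2 h3
  rw [tri_iff hne] at he hz
  obtain ⟨y, hy, e⟩ := (convex_closedBall d.1 d.2).isPreconnected.intermediate_value
    (mem_closedBall_self (hD.pos d hd).le) h (continuous_mu a.1 b.1 c.1).continuousOn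
    ⟨(not_le.1 he).le, hz⟩
  exact hD.bdry ha hb hc h1 h2 h3 e hd hy

end Triple

/-- The incentre of the triangle of centres. -/
noncomputable def inc (a b c : Disc) : ℂ :=
  ((b.2 + c.2) / (2 * (a.2 + b.2 + c.2)) : ℝ) * a.1 +
    ((c.2 + a.2) / (2 * (a.2 + b.2 + c.2)) : ℝ) * b.1 +
    ((a.2 + b.2) / (2 * (a.2 + b.2 + c.2)) : ℝ) * c.1

lemma inc_rot (a b c : Disc) : inc b c a = inc a b c := by
  simp only [inc, show b.2 + c.2 + a.2 = a.2 + b.2 + c.2 by ring]; ring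

lemma tri_inc {a b c : Disc} (ha : 0 < a.2) (hb : 0 < b.2) (hc : 0 < c.2) :
    Tri a.1 b.1 c.1 (inc a b c) :=
  ⟨_, _, _, by positivity, by positivity, by positivity, by field_simp; ring, rfl⟩

/-- The gap is star-shaped around the incentre. -/
lemma star {a b c : Disc} (h1 : Tan a b) (h2 : Tan b c) (h3 : Tan c a) (ha : 0 < a.2)
    (hb : 0 < b.2) (hc : 0 < c.2) {x : ℂ} (hx : Tri a.1 b.1 c.1 x) (hxa : a.2 ≤ dist x a.1)
    {t : ℝ} (h0 : 0 < t) (ht : t ≤ 1) : a.2 < dist ((1 - t : ℝ) * x + t * inc a b c : ℂ) a.1 := by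
  obtain ⟨l, m, n, hl, hm, hn, e, rfl⟩ := hx
  obtain rfl : l = 1 - m - n := by linarith
  have e1 := h1.sq
  have e2 := h2.sq
  have e3 := h3.sq
  have hs : 0 < a.2 + b.2 + c.2 := by positivity
  have d1 : dist ((1 - m - n : ℝ) * a.1 + m * b.1 + n * c.1 : ℂ) a.1 ≤
      m * (a.2 + b.2) + n * (c.2 + a.2) := by
    rw [← h1, ← h3]
    simp only [Complex.dist_eq]
    rw [show ((1 - m - n : ℝ) * a.1 + m * b.1 + n * c.1 - a.1 : ℂ) =
      n * (c.1 - a.1) - m * (a.1 - b.1) by push_cast; ring]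
    refine (norm_sub_le _ _).trans (le_of_eq ?_)
    simp [abs_of_nonneg, hm, hn, add_comm]
  have d2 := pow_le_pow_left₀ ha.le hxa 2
  refine lt_of_pow_lt_pow_left₀ 2 dist_nonneg ?_
  rw [dist_sq] at d2 ⊢
  obtain ⟨p, hp⟩ : ∃ p, (c.2 + a.2) / (2 * (a.2 + b.2 + c.2)) = p := ⟨_, rfl⟩
  obtain ⟨q, hq⟩ : ∃ q, (a.2 + b.2) / (2 * (a.2 + b.2 + c.2)) = q := ⟨_, rfl⟩
  have hr : (b.2 + c.2) / (2 * (a.2 + b.2 + c.2)) = 1 - p - q := by
    rw [← hp, ← hq]; field_simp; ring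
  simp only [inc, hp, hq, hr, Complex.add_re, Complex.add_im, Complex.re_ofReal_mul,
    Complex.im_ofReal_mul] at d2 ⊢
  obtain ⟨u, hu⟩ : ∃ u, b.1.re = a.1.re + u := ⟨b.1.re - a.1.re, by ring⟩
  obtain ⟨u', hu'⟩ : ∃ u, b.1.im = a.1.im + u := ⟨b.1.im - a.1.im, by ring⟩
  obtain ⟨v, hv⟩ : ∃ u, c.1.re = a.1.re + u := ⟨c.1.re - a.1.re, by ring⟩
  obtain ⟨v', hv'⟩ : ∃ u, c.1.im = a.1.im + u := ⟨c.1.im - a.1.im, by ring⟩
  simp only [hu, hu', hv, hv'] at e1 e2 e3 d2 ⊢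
  have f1 : u ^ 2 + u' ^ 2 = (a.2 + b.2) ^ 2 := by linear_combination e1
  have f3 : v ^ 2 + v' ^ 2 = (c.2 + a.2) ^ 2 := by linear_combination e3
  have f2 : u * v + u' * v' = a.2 * (a.2 + b.2 + c.2) - b.2 * c.2 := by
    linear_combination (e1 + e3 - e2) / 2
  have g1 : u * (p * u + q * v) + u' * (p * u' + q * v') = a.2 * (a.2 + b.2) := by
    have : p * (a.2 + b.2) ^ 2 + q * (a.2 * (a.2 + b.2 + c.2) - b.2 * c.2) = a.2 * (a.2 + b.2) := by
      rw [← hp, ← hq]; field_simp; ring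
    linear_combination p * f1 + q * f2 + this
  have g2 : v * (p * u + q * v) + v' * (p * u' + q * v') = a.2 * (c.2 + a.2) := by
    have : q * (c.2 + a.2) ^ 2 + p * (a.2 * (a.2 + b.2 + c.2) - b.2 * c.2) = a.2 * (c.2 + a.2) := by
      rw [← hp, ← hq]; field_simp; ring
    linear_combination q * f3 + p * f2 + this
  have g3 : a.2 ^ 2 < (p * u + q * v) ^ 2 + (p * u' + q * v') ^ 2 := by
    have : p * (a.2 * (a.2 + b.2)) + q * (a.2 * (c.2 + a.2)) =
        a.2 ^ 2 + a.2 * b.2 * c.2 / (a.2 + b.2 + c.2) := by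
      rw [← hp, ← hq]; field_simp; ring
    have h' : 0 < a.2 * b.2 * c.2 / (a.2 + b.2 + c.2) := by positivity
    linear_combination (exp := 1) h' - p * g1 - q * g2 - this
  have g4 : a.2 ^ 2 ≤ (m * u + n * v) * (p * u + q * v) + (m * u' + n * v') * (p * u' + q * v') := by
    have := mul_le_mul_of_nonneg_left (hxa.trans d1) ha.le
    linear_combination this - m * g1 - n * g2
  have g5 : a.2 ^ 2 ≤ (m * u + n * v) ^ 2 + (m * u' + n * v') ^ 2 := by linear_combination d2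
  have k1 := mul_le_mul_of_nonneg_left g5 (sq_nonneg (1 - t))
  have k2 := mul_le_mul_of_nonneg_left g4 (mul_nonneg h0.le (sub_nonneg.2 ht))
  have k3 := mul_lt_mul_of_pos_left g3 (pow_pos h0 2)
  linear_combination k1 + 2 * k2 + k3

/-- The discs touching the gap through `x`. -/
def touch (D : Set Disc) (x : ℂ) : Set Disc :=
  {d ∈ D | (closedBall d.1 d.2 ∩ closure (connectedComponentIn {z | Out D z} x)).Nonempty}

theorem Good.touch (hD : Good D) {x : ℂ} (hx : Out D x) : (touch D x).ncard = 3 := by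
  obtain ⟨a, ha, b, hb, c, hc, h1, h2, h3, hT, he⟩ := hD.cov x hx
  have pa := hD.pos a ha
  have pb := hD.pos b hb
  have pc := hD.pos c hc
  have hne := hD.toPk.cr_ne ha hb hc h1 h2 h3
  have hmiss : ∀ d ∈ D, ∀ z, Tri a.1 b.1 c.1 z → dist z d.1 ≤ d.2 → d = a ∨ d = b ∨ d = c :=
    fun d hd z hz h => by
      by_cases h' : Tri a.1 b.1 c.1 d.1
      exacts [he d hd h', hD.toPk.miss ha hb hc h1 h2 h3 hd h' hz h]
  have hstar : ∀ y, Tri a.1 b.1 c.1 y → a.2 ≤ dist y a.1 → b.2 ≤ dist y b.1 → c.2 ≤ dist y c.1 →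
      ∀ t ∈ Ioc (0 : ℝ) 1, Out D ((1 - t : ℝ) * y + t * inc a b c) := by
    intro y hy ya yb yc t ht d hd
    by_contra h
    rcases hmiss d hd _ (hy.mix (tri_inc pa pb pc) ht.1.le ht.2) (not_lt.1 h) with rfl | rfl | rfl
    · exact h (star h1 h2 h3 pa pb pc hy ya ht.1 ht.2)
    · exact h (inc_rot a d c ▸ star h2 h3 h1 pb pc pa hy.rot yb ht.1 ht.2)
    · exact h (inc_rot a b d ▸ inc_rot b d a ▸ star h3 h1 h2 pc pa pb hy.rot.rot yc ht.1 ht.2)
  have hcont : ∀ y : ℂ, Continuous fun t : ℝ => ((1 - t : ℝ) * y + t * inc a b c : ℂ) :=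
    fun y => by fun_prop
  have hI : inc a b c ∈ connectedComponentIn {z | Out D z} x := by
    refine (isPreconnected_Icc.image _ (hcont x).continuousOn).subset_connectedComponentIn
      ⟨0, left_mem_Icc.2 zero_le_one, by simp⟩ ?_ ⟨1, right_mem_Icc.2 zero_le_one, by simp⟩
    rintro _ ⟨t, ht, rfl⟩
    rcases ht.1.eq_or_lt with rfl | h
    · simpa using hx
    · exact hstar x hT (hx a ha).le (hx b hb).le (hx c hc).le t ⟨h, ht.2⟩
  have hcl : ∀ y, Tri a.1 b.1 c.1 y → a.2 ≤ dist y a.1 → b.2 ≤ dist y b.1 → c.2 ≤ dist y c.1 →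
      y ∈ closure (connectedComponentIn {z | Out D z} x) := by
    intro y hy ya yb yc
    rw [connectedComponentIn_eq hI]
    have s1 := (isPreconnected_Ioc.image _ (hcont y).continuousOn).subset_connectedComponentIn
      (x := inc a b c) (F := {z | Out D z}) ⟨1, right_mem_Ioc.2 zero_lt_one, by simp⟩
      (by rintro _ ⟨t, ht, rfl⟩; exact hstar y hy ya yb yc t ht)
    refine closure_mono s1 (image_closure_subset_closure_image (hcont y) ⟨0, ?_, by simp⟩)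
    rw [closure_Ioc zero_ne_one]; exact left_mem_Icc.2 zero_le_one
  have hfar : ∀ {u v w : Disc}, u ∈ D → v ∈ D → w ∈ D → Tan u v → Tan w u →
      w.2 ≤ dist (tp u v) w.1 := fun {u v w} hu hv hw h h' => not_lt.1 fun h'' =>
    h'.ne (hD.pos w hw) (hD.toPk.eq_of hu hw (tp_dist h (hD.pos u hu) (hD.pos v hv)).1.le h'').symm
  have htp : ∀ {u v : Disc} (w : ℂ), 0 < u.2 → 0 < v.2 → Tri u.1 v.1 w (tp u v) :=
    fun {u v} w hu hv => ⟨v.2 / (u.2 + v.2), u.2 / (u.2 + v.2), 0, by positivity, by positivity,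
      le_rfl, by field_simp; ring, by simp [tp]⟩
  have c1 := hcl _ (htp c.1 pa pb) (tp_dist h1 pa pb).1.ge (tp_dist h1 pa pb).2.ge
    (hfar ha hb hc h1 h3)
  have c2 := hcl _ (htp a.1 pb pc).rot.rot (hfar hb hc ha h2 h1) (tp_dist h2 pb pc).1.ge
    (tp_dist h2 pb pc).2.ge
  refine ncard_eq_three.2 ⟨a, b, c, h1.ne pa, (h3.ne pc).symm, h2.ne pb, ?_⟩
  refine Subset.antisymm (fun d ⟨hd, z, hz, hz'⟩ => hmiss d hd z ?_ hz) ?_
  · rw [tri_iff hne]
    refine closure_minimal (t := {z | 0 ≤ mu a.1 b.1 c.1 z}) (fun y hy => (not_lt.1 fun h => ?_ :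
      0 ≤ mu a.1 b.1 c.1 y))
      (isClosed_le continuous_const (continuous_mu _ _ _)) hz'
    obtain ⟨w, hw, e⟩ := isPreconnected_connectedComponentIn.intermediate_value hy
      (mem_connectedComponentIn hx) (continuous_mu a.1 b.1 c.1).continuousOn
      ⟨h.le, (tri_iff hne).1 hT⟩
    exact hD.toPk.bdry_in ha hb hc h1 h2 h3 e (connectedComponentIn_subset _ _ hw)
  · rintro d (rfl | rfl | rfl)
    exacts [⟨ha, _, (tp_dist h1 pa pb).1.le, c1⟩, ⟨hb, _, (tp_dist h1 pa pb).2.le, c1⟩,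
      ⟨hc, _, (tp_dist h2 pb pc).2.le, c2⟩]

end Pool.Agent.MP_3b6db3_gt.H5
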