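import Pool.Agent.MP_3b6db3_gt.H5.Gap

/-!
Similarities, periods, gluing of packings along lines covered by discs.
-/

open Set Metric

namespace Pool.Agent.MP_3b6db3_gt.H5

variable {D E : Set Disc}

/-- The image of a disc under `z ↦ α z + β`. -/
noncomputable def sim (α β : ℂ) (d : Disc) : Disc := (α * d.1 + β, ‖α‖ * d.2)

lemma dist_sim (α β z w : ℂ) : dist (α * z + β) (α * w + β) = ‖α‖ * dist z w := by
  rw [dist_add_right, Complex.dist_eq, Complex.dist_eq, ← mul_sub, norm_mul]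

lemma tri_sim {α : ℂ} (hα : α ≠ 0) (β : ℂ) {a b c z : ℂ} :
    Tri (α * a + β) (α * b + β) (α * c + β) (α * z + β) ↔ Tri a b c z := by
  refine exists₃_congr fun l m n => and_congr_right fun _ => and_congr_right fun _ =>
    and_congr_right fun _ => and_congr_right fun e => ?_
  have e' : (l : ℂ) + m + n = 1 := by exact_mod_cast e
  refine ⟨fun h => mul_left_cancel₀ hα ?_, fun h => ?_⟩
  · linear_combination h + β * e'
  · linear_combination α * h - β * e'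

lemma Pk.sim (hD : Pk D) {α : ℂ} (hα : α ≠ 0) (β : ℂ) : Pk (sim α β '' D) := by
  have h0 : 0 < ‖α‖ := norm_pos_iff.2 hα
  refine ⟨?_, ?_, ?_⟩
  · rintro _ ⟨d, hd, rfl⟩; exact mul_pos h0 (hD.pos d hd)
  · refine (hD.fin.image (‖α‖ * ·)).subset ?_
    rintro _ ⟨_, ⟨d, hd, rfl⟩, rfl⟩; exact ⟨_, ⟨d, hd, rfl⟩, rfl⟩
  · rintro _ ⟨d, hd, rfl⟩ _ ⟨e, he, rfl⟩ h
    simp only [H5.sim, dist_sim, ← mul_add] at h
    rw [hD.sep d hd e he (lt_of_mul_lt_mul_left h h0.le)]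

lemma Cov.sim {z : ℂ} (h : Cov D z) {α : ℂ} (hα : α ≠ 0) (β : ℂ) :
    Cov (sim α β '' D) (α * z + β) := by
  obtain ⟨a, ha, b, hb, c, hc, h1, h2, h3, hT, he⟩ := h
  have t : ∀ {u v : Disc}, Tan u v → Tan (H5.sim α β u) (H5.sim α β v) := fun {u v} h => by
    simp only [Tan, H5.sim, dist_sim, ← mul_add]; rw [h]
  refine ⟨_, ⟨a, ha, rfl⟩, _, ⟨b, hb, rfl⟩, _, ⟨c, hc, rfl⟩, t h1, t h2, t h3,
    (tri_sim hα β).2 hT, ?_⟩
  rintro _ ⟨d, hd, rfl⟩ h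
  rcases he d hd ((tri_sim hα β).1 h) with rfl | rfl | rfl <;> simp

lemma out_sim {α : ℂ} (hα : α ≠ 0) (β : ℂ) {z : ℂ} :
    Out (sim α β '' D) (α * z + β) ↔ Out D z := by
  simp only [Out, forall_mem_image, sim, dist_sim, mul_lt_mul_iff_right₀ (norm_pos_iff.2 hα)]

lemma Good.sim (hD : Good D) {α : ℂ} (hα : α ≠ 0) (β : ℂ) : Good (sim α β '' D) := by
  refine ⟨hD.toPk.sim hα β, fun z hz => ?_⟩
  obtain ⟨w, rfl⟩ : ∃ w, z = α * w + β := ⟨(z - β) / α, by field_simp; ring⟩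
  exact (hD.cov w ((out_sim hα β).1 hz)).sim hα β

/-- The group of periods. -/
def Per (D : Set Disc) : AddSubgroup ℂ where
  carrier := {v | ∀ d : Disc, (d.1 + v, d.2) ∈ D ↔ d ∈ D}
  add_mem' {v w} hv hw d := by rw [← add_assoc]; exact (hw (d.1 + v, d.2)).trans (hv d)
  zero_mem' d := by simp
  neg_mem' {v} hv d := by simpa using (hv (d.1 + -v, d.2)).symm

lemma Per.sim {v : ℂ} (hv : v ∈ Per D) (α β : ℂ) : α * v ∈ Per (sim α β '' D) := by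
  have key : ∀ {v}, v ∈ Per D → ∀ d ∈ H5.sim α β '' D, (d.1 + α * v, d.2) ∈ H5.sim α β '' D := by
    rintro v hv _ ⟨d, hd, rfl⟩
    exact ⟨_, (hv d).2 hd, Prod.ext (by simp only [H5.sim]; ring) rfl⟩
  refine fun d => ⟨fun h => ?_, key hv d⟩
  simpa using key ((Per D).neg_mem hv) _ h

/-- Translation of a family of discs. -/
def sh (v : ℂ) (D : Set Disc) : Set Disc := {d | (d.1 - v, d.2) ∈ D}

lemma sh_eq (v : ℂ) (D : Set Disc) : sh v D = sim 1 v '' D := by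
  ext d
  refine ⟨fun h => ⟨_, h, by simp [sim]⟩, ?_⟩
  rintro ⟨e, he, rfl⟩; simpa [sh, sim] using he

lemma Per.sh {v : ℂ} (hv : v ∈ Per D) (w : ℂ) : v ∈ Per (sh w D) := by
  simpa [sh_eq] using Per.sim hv 1 w

/-- A packing of the strip `a ≤ im ≤ b`. -/
structure Strip (D : Set Disc) (a b : ℝ) : Prop extends Pk D where
  mem : ∀ d ∈ D, a ≤ d.1.im ∧ d.1.im ≤ b
  cov : ∀ z, a ≤ z.im → z.im ≤ b → Out D z → Cov D z

lemma Strip.sh {a b : ℝ} (hD : Strip D a b) (v : ℂ) : Strip (sh v D) (a + v.im) (b + v.im) := by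
  refine ⟨sh_eq v D ▸ hD.toPk.sim one_ne_zero v, fun d hd => ?_, fun z h1 h2 hz => ?_⟩
  · have := hD.mem _ hd
    simp only [Complex.sub_im] at this
    constructor <;> linarith [this.1, this.2]
  · obtain ⟨w, rfl⟩ : ∃ w, z = 1 * w + v := ⟨z - v, by ring⟩
    rw [sh_eq] at hz ⊢
    simp only [one_mul, Complex.add_im, add_le_add_iff_right] at h1 h2
    exact (hD.cov w h1 h2 ((out_sim one_ne_zero v).1 hz)).sim one_ne_zero v

/-- The line `im = h` is covered by discs of `K` centred on it. -/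
def Wall (K : Set Disc) (h : ℝ) : Prop :=
  ∀ z : ℂ, z.im = h → ∃ k ∈ K, k.1.im = h ∧ dist z k.1 ≤ k.2

lemma Wall.mono {K K' : Set Disc} {h : ℝ} (hK : Wall K h) (s : ∀ k ∈ K, k.1.im = h → k ∈ K') :
    Wall K' h := fun z hz => let ⟨k, h1, h2, h3⟩ := hK z hz; ⟨k, s k h1 h2, h2, h3⟩

lemma cross {u v : ℂ} {h : ℝ} (h1 : u.im ≤ h) (h2 : h ≤ v.im) : ∃ l m : ℝ, 0 ≤ l ∧ 0 ≤ m ∧
    l + m = 1 ∧ (l * u + m * v : ℂ).im = h ∧
      dist (l * u + m * v : ℂ) u + dist (l * u + m * v : ℂ) v = dist u v := by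
  obtain ⟨l, m, hl, hm, e, e'⟩ := (segment_eq_Icc (h1.trans h2)).ge ⟨h1, h2⟩
  refine ⟨l, m, hl, hm, e, by simpa using e', ?_⟩
  rw [dist_comm _ u]
  exact dist_add_dist_of_mem_segment ⟨l, m, hl, hm, e, by simp⟩

lemma Wall.hit {K : Set Disc} {h : ℝ} (hK : Wall K h) {d e : Disc} (h1 : d.1.im ≤ h)
    (h2 : h ≤ e.1.im) (ho : dist d.1 e.1 < d.2 + e.2) :
    ∃ k ∈ K, dist d.1 k.1 < d.2 + k.2 ∨ dist k.1 e.1 < k.2 + e.2 := by
  obtain ⟨l, m, -, -, -, e1, e2⟩ := cross h1 h2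
  obtain ⟨k, hk, -, e3⟩ := hK _ e1
  refine ⟨k, hk, ?_⟩
  by_contra hc
  push Not at hc
  linarith [dist_triangle_left d.1 k.1 (l * d.1 + m * e.1),
    dist_triangle_left k.1 e.1 (l * d.1 + m * e.1), hc.1, hc.2]

lemma Wall.mem {K : Set Disc} {h : ℝ} (hK : Wall K h) (hE : Pk E) (s : K ⊆ E) {d : Disc}
    (hd : d ∈ E) (e : d.1.im = h) : d ∈ K := by
  obtain ⟨k, hk, -, e3⟩ := hK _ e
  rwa [← hE.eq_of (s hk) hd e3 (by simpa using hE.pos d hd)]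

lemma Tri.im_mem {a b c z : ℂ} (h : Tri a b c z) {s : Set ℝ} (hs : Convex ℝ s) (ha : a.im ∈ s)
    (hb : b.im ∈ s) (hc : c.im ∈ s) : z.im ∈ s := by
  obtain ⟨l, m, n, h1, h2, h3, h4, rfl⟩ := h
  have := hs.sum_mem (t := Finset.univ) (w := ![l, m, n]) (z := ![a.im, b.im, c.im])
    (fun i _ => by fin_cases i <;> simpa) (by simpa [Fin.sum_univ_three])
    (fun i _ => by fin_cases i <;> simpa)
  simpa [Fin.sum_univ_three] using this

lemma Tri.re_mem {a b c z : ℂ} (h : Tri a b c z) {s : Set ℝ} (hs : Convex ℝ s) (ha : a.re ∈ s)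
    (hb : b.re ∈ s) (hc : c.re ∈ s) : z.re ∈ s := by
  obtain ⟨l, m, n, h1, h2, h3, h4, rfl⟩ := h
  have := hs.sum_mem (t := Finset.univ) (w := ![l, m, n]) (z := ![a.re, b.re, c.re])
    (fun i _ => by fin_cases i <;> simpa) (by simpa [Fin.sum_univ_three])
    (fun i _ => by fin_cases i <;> simpa)
  simpa [Fin.sum_univ_three] using this

lemma Cov.extend {a b : ℝ} {z : ℂ} (h : Cov D z) (hD : ∀ d ∈ D, a ≤ d.1.im ∧ d.1.im ≤ b)
    (s : D ⊆ E) (hE : ∀ d ∈ E, a ≤ d.1.im → d.1.im ≤ b → d ∈ D) : Cov E z := by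
  obtain ⟨u, hu, v, hv, w, hw, h1, h2, h3, hT, he⟩ := h
  refine ⟨u, s hu, v, s hv, w, s hw, h1, h2, h3, hT, fun d hd h => he d ?_ h⟩
  have := h.im_mem (convex_Icc a b) (hD u hu) (hD v hv) (hD w hw)
  exact hE d hd this.1 this.2

theorem Strip.union {a h b : ℝ} (hD : Strip D a h) (hE : Strip E h b) (h1 : a ≤ h) (h2 : h ≤ b)
    (hW : Wall (D ∩ E) h) : Strip (D ∪ E) a b := by
  have key : ∀ d ∈ D, ∀ e ∈ E, dist d.1 e.1 < d.2 + e.2 → d = e := fun d hd e he ho => by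
    obtain ⟨k, hk, h | h⟩ := hW.hit (hD.mem d hd).2 (hE.mem e he).1 ho
    · exact hE.sep d (hD.sep d hd k hk.1 h ▸ hk.2) e he ho
    · exact hD.sep d hd e (hE.sep k hk.2 e he h ▸ hk.1) ho
  have hP : Pk (D ∪ E) := by
    refine ⟨fun d hd => hd.elim (hD.pos d) (hE.pos d), image_union _ _ _ ▸ hD.fin.union hE.fin, ?_⟩
    rintro d (hd | hd) e (he | he) ho
    exacts [hD.sep d hd e he ho, key d hd e he ho,
      (key e he d hd (by rwa [dist_comm, add_comm])).symm, hE.sep d hd e he ho]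
  have hm := fun d => hW.mem hP (inter_subset_left.trans subset_union_left) (d := d)
  refine ⟨hP, ?_, fun z z1 z2 hz => ?_⟩
  · rintro d (hd | hd)
    exacts [⟨(hD.mem d hd).1, (hD.mem d hd).2.trans h2⟩, ⟨h1.trans (hE.mem d hd).1, (hE.mem d hd).2⟩]
  rcases le_total z.im h with z3 | z3
  · refine (hD.cov z z1 z3 fun d hd => hz d (Or.inl hd)).extend hD.mem subset_union_left ?_
    rintro d (hd | hd) _ d2
    exacts [hd, (hm d (Or.inr hd) (d2.antisymm (hE.mem d hd).1)).1]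
  · refine (hE.cov z z3 z2 fun d hd => hz d (Or.inr hd)).extend hE.mem subset_union_right ?_
    rintro d (hd | hd) d1 _
    exacts [(hm d (Or.inl hd) ((hD.mem d hd).2.antisymm d1)).2, hd]

lemma Per.union {v : ℂ} (h1 : v ∈ Per D) (h2 : v ∈ Per E) : v ∈ Per (D ∪ E) :=
  fun d => or_congr (h1 d) (h2 d)

/-- Periodic repetition. -/
def per (ω : ℂ) (D : Set Disc) : Set Disc := {d | ∃ n : ℤ, d ∈ sh (n * ω) D}

lemma subset_per (ω : ℂ) (D : Set Disc) : D ⊆ per ω D := fun d hd => ⟨0, by simpa [sh] using hd⟩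

lemma Per.per {v : ℂ} (hv : v ∈ Per D) (ω : ℂ) : v ∈ Per (per ω D) :=
  fun d => exists_congr fun n => Per.sh hv (n * ω) d

lemma mem_congr {z w : ℂ} {r : ℝ} (h : (z, r) ∈ D) (e : w = z) : (w, r) ∈ D := e ▸ h

lemma mem_sh {z w v : ℂ} {r : ℝ} (h : (z, r) ∈ D) (e : w - v = z) : (w, r) ∈ sh v D :=
  mem_congr (D := D) h e

lemma mem_per (ω : ℂ) (D : Set Disc) : ω ∈ Per (per ω D) := by
  rintro ⟨z, r⟩
  constructor <;> rintro ⟨n, h⟩
  · exact ⟨n - 1, mem_sh (D := D) (z := z + ω - n * ω) h (by push_cast; ring)⟩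
  · exact ⟨n + 1, mem_sh (D := D) (z := z - n * ω) h (by push_cast; ring)⟩

theorem Strip.per {a : ℝ} {ω : ℂ} (hD : Strip D a (a + ω.im)) (h0 : 0 < ω.im)
    (hW : Wall {d | d ∈ D ∧ (d.1 + ω, d.2) ∈ D} a) : Good (per ω D) := by
  have hS : ∀ n : ℤ, Strip (H5.sh (n * ω) D) (a + n * ω.im) (a + (n + 1) * ω.im) := fun n => by
    convert hD.sh (n * ω) using 1 <;> simp; ring
  have hW' : ∀ n : ℤ, Wall (H5.sh (n * ω) D ∩ H5.sh ((n + 1 : ℤ) * ω) D) (a + (n + 1) * ω.im) := by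
    intro n z hz
    obtain ⟨k, hk, k1, k2⟩ := hW (z - (n + 1 : ℤ) * ω) (by simp [hz])
    refine ⟨(k.1 + (n + 1 : ℤ) * ω, k.2), ⟨?_, by simpa [H5.sh] using hk.1⟩, by simp [k1], ?_⟩
    · exact mem_sh hk.2 (by push_cast; ring)
    · rwa [← dist_add_right _ _ (((n + 1 : ℤ) : ℂ) * ω), sub_add_cancel] at k2
  have key : ∀ (k : ℕ) (n : ℤ), ∀ d ∈ H5.sh (n * ω) D, ∀ e ∈ H5.sh ((n + k : ℤ) * ω) D,
      dist d.1 e.1 < d.2 + e.2 → d = e := by
    intro k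
    induction k with
    | zero => intro n d hd e he; exact (hS n).sep d hd e (by simpa using he)
    | succ k ih =>
      intro n d hd e he ho
      have he' : e ∈ H5.sh ((n + 1 + k : ℤ) * ω) D := by convert he using 4; push_cast; ring
      have h2 : a + (n + 1) * ω.im ≤ e.1.im := le_trans (by
        push_cast; nlinarith [mul_nonneg (Nat.cast_nonneg (α := ℝ) k) h0.le]) ((hS _).mem e he').1
      obtain ⟨c, hc, h | h⟩ := (hW' n).hit ((hS n).mem d hd).2 h2 ho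
      · exact ih (n + 1) d ((hS n).sep d hd c hc.1 h ▸ hc.2) e he' ho
      · exact (hS n).sep d hd e (ih (n + 1) c hc.2 e he' h ▸ hc.1) ho
  have hP : Pk (H5.per ω D) := by
    refine ⟨fun d ⟨n, hd⟩ => (hS n).pos d hd, hD.fin.subset ?_, fun d ⟨n, hd⟩ e ⟨m, he⟩ ho => ?_⟩
    · rintro _ ⟨d, ⟨n, hd⟩, rfl⟩; exact ⟨_, hd, rfl⟩
    · rcases le_total n m with h | h
      · obtain ⟨k, rfl⟩ := Int.le.dest h
        exact key k n d hd e he ho
      · obtain ⟨k, rfl⟩ := Int.le.dest h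
        exact (key k m e he d hd (by rwa [dist_comm, add_comm])).symm
  refine ⟨hP, fun z hz => ?_⟩
  obtain ⟨n, n1, n2⟩ : ∃ n : ℤ, a + n * ω.im ≤ z.im ∧ z.im ≤ a + (n + 1) * ω.im := by
    refine ⟨⌊(z.im - a) / ω.im⌋, ?_, ?_⟩
    · linarith [(le_div_iff₀ h0).1 (Int.floor_le ((z.im - a) / ω.im))]
    · linarith [(div_lt_iff₀ h0).1 (Int.lt_floor_add_one ((z.im - a) / ω.im))]
  refine ((hS n).cov z n1 n2 fun d hd => hz d ⟨n, hd⟩).extend (hS n).mem (fun d hd => ⟨n, hd⟩) ?_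
  rintro d ⟨m, hd⟩ d1 d2
  have hm := (hS m).mem d hd
  rcases lt_trichotomy m n with h | rfl | h
  · have h' : (m : ℝ) + 1 ≤ n := by exact_mod_cast h
    have := ((hW' (n - 1)).mem hP (fun d hd => ⟨_, hd.1⟩) ⟨m, hd⟩ (by
      push_cast; nlinarith [mul_le_mul_of_nonneg_right h' h0.le])).2
    simpa using this
  · exact hd
  · have h' : (n : ℝ) + 1 ≤ m := by exact_mod_cast h
    exact ((hW' n).mem hP (fun d hd => ⟨_, hd.1⟩) ⟨m, hd⟩ (by
      nlinarith [mul_le_mul_of_nonneg_right h' h0.le])).1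

lemma Wall.side (hD : Pk D) {h : ℝ} (hW : Wall D h) {u v : Disc} (hu : u ∈ D) (hv : v ∈ D)
    (ht : Tan u v) (h1 : u.1.im < h) (h2 : h < v.1.im) : False := by
  obtain ⟨l, m, hl, hm, e, e1, -⟩ := cross h1.le h2.le
  obtain ⟨k, hk, k1, k2⟩ := hW _ e1
  rcases hD.edge hu hv hk ht hl hm e k2 with rfl | rfl <;> linarith

theorem Good.restrict (hD : Good D) {a b : ℝ} (ha : Wall D a) (hb : Wall D b) (hab : a ≤ b) :
    Strip {d ∈ D | a ≤ d.1.im ∧ d.1.im ≤ b} a b := by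
  refine ⟨⟨fun d hd => hD.pos d hd.1, hD.fin.subset (image_mono fun d hd => hd.1),
    fun d hd e he => hD.sep d hd.1 e he.1⟩, fun d hd => hd.2, fun z z1 z2 hz => ?_⟩
  have z3 : a < z.im := z1.lt_of_ne fun e => by
    obtain ⟨k, hk, k1, k2⟩ := ha z e.symm
    exact (hz k ⟨hk, k1.ge, k1.trans_le hab⟩).not_ge k2
  have z4 : z.im < b := z2.lt_of_ne fun e => by
    obtain ⟨k, hk, k1, k2⟩ := hb z e
    exact (hz k ⟨hk, hab.trans k1.ge, k1.le⟩).not_ge k2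
  have aux : ∀ {h : ℝ} {p : ℂ} {d : Disc}, Wall D h → d ∈ D → p.im = h → z.im ≠ h →
      dist p z + dist p d.1 = dist z d.1 → dist z d.1 ≤ d.2 → d.1.im = h := by
    intro h p d hW hd e1 e2 e3 e4
    obtain ⟨k, hk, k1, k2⟩ := hW p e1
    have : 0 < dist p z := dist_pos.2 fun e => e2 (e ▸ e1)
    rwa [← hD.toPk.eq_of hk hd k2 (by linarith)]
  have ho : Out D z := fun d hd => not_le.1 fun h => by
    rcases lt_or_ge d.1.im a with h1 | h1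
    · obtain ⟨l, m, -, -, -, e1, e2⟩ := cross h1.le z1
      exact h1.ne (aux ha hd e1 z3.ne' (by rw [add_comm, e2, dist_comm]) h)
    rcases lt_or_ge b d.1.im with h2 | h2
    · obtain ⟨l, m, -, -, -, e1, e2⟩ := cross z2 h2.le
      exact h2.ne' (aux hb hd e1 z4.ne e2 h)
    exact (hz d ⟨hd, h1, h2⟩).not_ge h
  obtain ⟨u, hu, v, hv, w, hw, h1, h2, h3, hT, he⟩ := hD.cov z ho
  have key : ∀ {u v w : Disc}, u ∈ D → v ∈ D → w ∈ D → Tan u v → Tan w u →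
      Tri u.1 v.1 w.1 z → a ≤ u.1.im ∧ u.1.im ≤ b := by
    intro u v w hu hv hw h1 h3 hT
    refine ⟨not_lt.1 fun h => z3.not_ge (hT.im_mem (convex_Iic a) h.le
      (not_lt.1 (ha.side hD.toPk hu hv h1 h)) (not_lt.1 (ha.side hD.toPk hu hw h3.symm h))),
      not_lt.1 fun h => z4.not_ge (hT.im_mem (convex_Ici b) h.le
      (not_lt.1 fun h' => hb.side hD.toPk hv hu h1.symm h' h)
      (not_lt.1 fun h' => hb.side hD.toPk hw hu h3 h' h))⟩
  exact ⟨u, ⟨hu, key hu hv hw h1 h3 hT⟩, v, ⟨hv, key hv hw hu h2 h1 hT.rot⟩, w,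
    ⟨hw, key hw hu hv h3 h2 hT.rot.rot⟩, h1, h2, h3, hT, fun d hd => he d hd.1⟩

/-- A packing with period `1` that contains rows of discs of diameter `1` through `0` and `τ`. -/
def Lay (τ : ℂ) : Prop :=
  0 < τ.im ∧ ∃ D, Good D ∧ 1 ∈ Per D ∧ ((0 : ℂ), (1 / 2 : ℝ)) ∈ D ∧ (τ, (1 / 2 : ℝ)) ∈ D

lemma wall_row {K : Set Disc} {v : ℂ} (h : ∀ n : ℤ, (v + n, (1 / 2 : ℝ)) ∈ K) : Wall K v.im := by
  intro z hz
  refine ⟨_, h (round (z.re - v.re)), by simp, ?_⟩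
  have : z - (v + (round (z.re - v.re) : ℤ)) = (z.re - v.re - round (z.re - v.re) : ℝ) :=
    Complex.ext (by simp; ring) (by simp [hz])
  rw [Complex.dist_eq, this, Complex.norm_real]
  exact abs_sub_round _

lemma row_mem (h1 : 1 ∈ Per D) {v : ℂ} {r : ℝ} (h : (v, r) ∈ D) (n : ℤ) : (v + n, r) ∈ D := by
  have := (Per D).zsmul_mem h1 n (v, r)
  rw [zsmul_one] at this
  exact this.2 h

theorem Lay.glue {σ τ : ℂ} (hσ : Lay σ) (hτ : Lay τ) :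
    ∃ D, Good D ∧ 1 ∈ Per D ∧ σ + τ ∈ Per D ∧ ((0 : ℂ), (1 / 2 : ℝ)) ∈ D := by
  have key : ∀ {τ : ℂ}, Lay τ → ∃ D, Strip D 0 τ.im ∧ 1 ∈ Per D ∧
      (∀ n : ℤ, ((0 : ℂ) + n, (1 / 2 : ℝ)) ∈ D) ∧ ∀ n : ℤ, (τ + n, (1 / 2 : ℝ)) ∈ D := by
    rintro τ ⟨h0, D, hD, h1, h2, h3⟩
    exact ⟨_, hD.restrict (wall_row (row_mem h1 h2)) (wall_row (row_mem h1 h3)) h0.le,
      fun d => and_congr (h1 d) (by simp), fun n => ⟨row_mem h1 h2 n, by simpa using h0.le⟩,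
      fun n => ⟨row_mem h1 h3 n, by simpa using h0.le⟩⟩
  obtain ⟨D, hD, d1, d2, d3⟩ := key hσ
  obtain ⟨E, hE, e1, e2, e3⟩ := key hτ
  have hE' := hE.sh σ
  rw [zero_add] at hE'
  have hS := hD.union hE' hσ.1.le (by linarith [hτ.1])
    (wall_row fun n => ⟨d3 n, mem_sh (e2 n) (by ring)⟩)
  refine ⟨per (σ + τ) (D ∪ sh σ E), Strip.per (a := 0) (by convert hS using 1; simp [add_comm])
    (by simpa using add_pos hσ.1 hτ.1) (wall_row (v := 0) fun n =>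
      ⟨Or.inl (d2 n), Or.inr (mem_sh (e3 n) (by ring))⟩),
    Per.per (Per.union d1 (Per.sh e1 σ)) _, mem_per _ _, subset_per _ _ (Or.inl ?_)⟩
  simpa using d2 0

theorem Lay.add {σ τ : ℂ} (hσ : Lay σ) (hτ : Lay τ) : Lay (σ + τ) := by
  obtain ⟨D, h1, h2, h3, h4⟩ := hσ.glue hτ
  exact ⟨by simpa using add_pos hσ.1 hτ.1, D, h1, h2, h4, by simpa using (h3 _).2 h4⟩

lemma Pk.exists_lb (hD : Pk D) : ∃ ε > 0, ∀ d ∈ D, ε ≤ d.2 := by
  rcases D.eq_empty_or_nonempty with rfl | hne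
  · exact ⟨1, one_pos, by simp⟩
  obtain ⟨_, ⟨d, hd, rfl⟩, h⟩ := exists_min_image _ id hD.fin (hne.image _)
  exact ⟨_, hD.pos d hd, fun e he => h _ ⟨e, he, rfl⟩⟩

lemma Pk.exists_out (hD : Pk D) (h0 : ((0 : ℂ), (1 / 2 : ℝ)) ∈ D)
    (h1 : ((1 : ℂ), (1 / 2 : ℝ)) ∈ D) : ∃ z, Out D z := by
  obtain ⟨ε, e0, he⟩ := hD.exists_lb
  obtain ⟨δ, d0, d1, d2⟩ : ∃ δ > 0, δ ≤ ε ∧ δ ≤ 1 / 4 :=
    ⟨min ε (1 / 4), by positivity, min_le_left _ _, min_le_right _ _⟩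
  refine ⟨⟨1 / 2, δ⟩, fun d hd => not_le.1 fun h => ?_⟩
  have h' := pow_le_pow_left₀ dist_nonneg h 2
  by_cases c0 : d = (0, 1 / 2)
  · rw [dist_sq, c0] at h'; simp at h'; nlinarith
  by_cases c1 : d = (1, 1 / 2)
  · rw [dist_sq, c1] at h'; simp at h'; nlinarith
  have pd := hD.pos d hd
  have s := stewart (a := (0, 1 / 2)) (b := (1, 1 / 2)) (by simp [Tan]; norm_num) (by norm_num)
    (by norm_num) pd (hD.le hd h0 c0) (hD.le hd h1 c1)
  have t : dist (tp (0, 1 / 2) (1, 1 / 2)) (⟨1 / 2, δ⟩ : ℂ) = δ := by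
    refine (pow_left_inj₀ dist_nonneg d0.le two_ne_zero).1 ?_
    rw [dist_sq]; norm_num [tp]
  have t2 := pow_le_pow_left₀ dist_nonneg
    ((dist_triangle _ (⟨1 / 2, δ⟩ : ℂ) d.1).trans (add_le_add t.le h)) 2
  norm_num at s t2
  nlinarith [he d hd]

lemma Pk.finite (hD : Pk D) (R : ℝ) : {d ∈ D | |d.1.re| ≤ R ∧ |d.1.im| ≤ R}.Finite := by
  obtain ⟨ε, e0, he⟩ := hD.exists_lb
  have hb : ∀ x : ℝ, |x| ≤ R → ⌊x / ε⌋ ∈ Icc ⌊-R / ε⌋ ⌊R / ε⌋ := fun x hx =>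
    ⟨Int.floor_mono (by gcongr; exact (abs_le.1 hx).1),
      Int.floor_mono (by gcongr; exact (abs_le.1 hx).2)⟩
  refine Finite.of_finite_image (f := fun d => (⌊d.1.re / ε⌋, ⌊d.1.im / ε⌋))
    (((finite_Icc ⌊-R / ε⌋ ⌊R / ε⌋).prod (finite_Icc ⌊-R / ε⌋ ⌊R / ε⌋)).subset ?_) ?_
  · rintro _ ⟨d, hd, rfl⟩; exact ⟨hb _ hd.2.1, hb _ hd.2.2⟩
  · intro d hd e he' h
    have k : ∀ x y : ℝ, ⌊x / ε⌋ = ⌊y / ε⌋ → |x - y| < ε := fun x y h => by
      have := Int.abs_sub_lt_one_of_floor_eq_floor h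
      rwa [← sub_div, abs_div, abs_of_pos e0, div_lt_one e0] at this
    refine hD.sep d hd.1 e he'.1 ?_
    have := Complex.norm_le_abs_re_add_abs_im (d.1 - e.1)
    rw [Complex.sub_re, Complex.sub_im, ← Complex.dist_eq] at this
    linarith [k _ _ (congrArg Prod.fst h), k _ _ (congrArg Prod.snd h), he d hd.1, he e he'.1]

end Pool.Agent.MP_3b6db3_gt.H5
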