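import Pool.Agent.MP_3b6db3_gt.H5.Glue

/-!
Packings of a strip by two rows of discs centred on its boundary lines.
-/

open Set Metric

namespace Pool.Agent.MP_3b6db3_gt.H5

lemma sep_of_re {d e : Disc} (h : d.1.re + d.2 ≤ e.1.re - e.2) : d.2 + e.2 ≤ dist d.1 e.1 := by
  have := Complex.re_le_norm (e.1 - d.1)
  rw [Complex.sub_re, ← Complex.dist_eq, dist_comm] at this
  linarith

lemma sep_of_re' {d e : Disc} (h : e.1.re + e.2 ≤ d.1.re - d.2) : d.2 + e.2 ≤ dist d.1 e.1 := by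
  rw [dist_comm, add_comm]; exact sep_of_re h

lemma Pk.extreme {D : Set Disc} (hD : Pk D) {a b c d : Disc} (ha : a ∈ D) (hb : b ∈ D)
    (hc : c ∈ D) (h1 : Tan a b) (h2 : Tan b c) (h3 : Tan c a) (hd : d ∈ D)
    (hT : Tri a.1 b.1 c.1 d.1) {ε : ℝ} (h0 : ε ≠ 0) (ea : 0 ≤ ε * (a.1.im - d.1.im))
    (eb : 0 ≤ ε * (b.1.im - d.1.im)) (ec : 0 ≤ ε * (c.1.im - d.1.im)) :
    d = a ∨ d = b ∨ d = c := by
  obtain ⟨l, m, n, hl, hm, hn, e, hz⟩ := hT
  have pd := (hD.pos d hd).le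
  rcases hl.eq_or_lt with rfl | hl
  · have := hD.edge hb hc hd h2 hm hn (by linarith) (by rw [hz]; simpa); tauto
  rcases hm.eq_or_lt with rfl | hm
  · have := hD.edge hc ha hd h3 hn hl.le (by linarith) (by rw [hz]; simpa [add_comm]); tauto
  rcases hn.eq_or_lt with rfl | hn
  · have := hD.edge ha hb hd h1 hl.le hm.le (by linarith) (by rw [hz]; simpa); tauto
  exfalso
  have hi : d.1.im = l * a.1.im + m * b.1.im + n * c.1.im := by rw [hz]; simp
  have s : l * (ε * (a.1.im - d.1.im)) + m * (ε * (b.1.im - d.1.im)) +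
      n * (ε * (c.1.im - d.1.im)) = 0 := by linear_combination -ε * hi - ε * d.1.im * e
  have k : ∀ {t x : ℝ}, 0 < t → t * (ε * x) = 0 → x = 0 := fun ht h => by
    simpa [ht.ne', h0] using h
  have t1 := mul_nonneg hl.le ea
  have t2 := mul_nonneg hm.le eb
  have t3 := mul_nonneg hn.le ec
  have z1 := k hl (x := a.1.im - d.1.im) (by linarith)
  have z2 := k hm (x := b.1.im - d.1.im) (by linarith)
  have z3 := k hn (x := c.1.im - d.1.im) (by linarith)
  refine hD.cr_ne ha hb hc h1 h2 h3 ?_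
  rw [cr, show c.1.im - a.1.im = 0 by linarith, show b.1.im - a.1.im = 0 by linarith]; ring

lemma tri_base {h α y c κ s ξ : ℝ} (hα : 0 < α) (hκ : 0 < κ) (hs : 0 ≤ s)
    (hξ : κ * |ξ| ≤ α * (κ - s)) :
    Tri ⟨h - α, y⟩ ⟨h + α, y⟩ ⟨h, y + κ * c⟩ ⟨h + ξ, y + s * c⟩ := by
  have h1 := mul_le_mul_of_nonneg_left (le_abs_self ξ) hκ.le
  have h2 := mul_le_mul_of_nonneg_left (neg_le_abs ξ) hκ.le
  refine ⟨(α * (κ - s) - κ * ξ) / (2 * α * κ), (α * (κ - s) + κ * ξ) / (2 * α * κ), s / κ,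
    div_nonneg (by linarith) (by positivity), div_nonneg (by linarith) (by positivity),
    by positivity, by field_simp; ring, Complex.ext ?_ ?_⟩ <;>
  simp only [Complex.add_re, Complex.add_im, Complex.re_ofReal_mul, Complex.im_ofReal_mul] <;>
  field_simp <;> ring

lemma tri_side {h α β y c κ s ξ : ℝ} (e : ℝ) (hα : 0 < α) (hβ : 0 < β) (hκ : 0 < κ) (hκ' : κ < 1)
    (h1 : α * (κ - s) ≤ κ * ξ) (h2 : β * (s - κ) ≤ (1 - κ) * ξ) (h3 : ξ ≤ (1 - s) * α + s * β) :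
    Tri ⟨h + e * α, y⟩ ⟨h + e * β, y + c⟩ ⟨h, y + κ * c⟩ ⟨h + e * ξ, y + s * c⟩ := by
  have hG : 0 < (1 - κ) * α + κ * β := by have := sub_pos.2 hκ'; positivity
  obtain ⟨G, e1⟩ : ∃ G, (1 - κ) * α + κ * β = G := ⟨_, rfl⟩
  rw [e1] at hG
  refine ⟨((1 - κ) * ξ - β * (s - κ)) / G, (κ * ξ - α * (κ - s)) / G,
    ((1 - s) * α + s * β - ξ) / G, div_nonneg (by linarith) hG.le, div_nonneg (by linarith) hG.le,
    div_nonneg (by linarith) hG.le, by field_simp; rw [← e1]; ring, Complex.ext ?_ ?_⟩ <;>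
  simp only [Complex.add_re, Complex.add_im, Complex.re_ofReal_mul, Complex.im_ofReal_mul] <;>
  field_simp <;> rw [← e1] <;> ring

/-- Two rows of discs given by their points of tangency `p` (at height `y`) and `q` (at height
`y'`); discs of different rows are tangent as soon as their shadows overlap. -/
structure Zig where
  p : ℤ → ℝ
  q : ℤ → ℝ
  y : ℝ
  y' : ℝ
  W : ℝ
  hW : 0 < W
  hy : (y' - y) ^ 2 = W ^ 2
  mp : StrictMono p
  mq : StrictMono q
  lp : ∀ x, ∃ i, p i ≤ x ∧ x < p (i + 1)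
  lq : ∀ x, ∃ i, q i ≤ x ∧ x < q (i + 1)
  fp : (range fun i => p (i + 1) - p i).Finite
  fq : (range fun i => q (i + 1) - q i).Finite
  tan : ∀ i j, p i < q (j + 1) → q j < p (i + 1) → (p (i + 1) - q j) * (q (j + 1) - p i) = W ^ 2
  sp : ∀ i j, p i = q j → p (i + 1) - p i = p i - p (i - 1)
  sq : ∀ i j, p i = q j → q (j + 1) - q j = q j - q (j - 1)

namespace Zig

variable (X : Zig)

/-- Exchange of the two rows. -/
def swap : Zig :=
  ⟨X.q, X.p, X.y', X.y, X.W, X.hW, by rw [← X.hy]; ring, X.mq, X.mp, X.lq, X.lp, X.fq, X.fp,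
    fun i j h h' => by rw [mul_comm]; exact X.tan j i h' h, fun i j h => X.sq j i h.symm,
    fun i j h => X.sp j i h.symm⟩

/-- The discs of the first row. -/
noncomputable def L (i : ℤ) : Disc := (⟨(X.p i + X.p (i + 1)) / 2, X.y⟩, (X.p (i + 1) - X.p i) / 2)

/-- The denominator in the formula for the filling disc. -/
noncomputable def den (i j : ℤ) : ℝ :=
  (X.p (i + 1) - X.p i + √2 * X.W) + (X.q (j + 1) - X.q j + √2 * X.W)

/-- The disc filling a quadrilateral gap. -/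
noncomputable def Z (i j : ℤ) : Disc :=
  (⟨(X.p i + X.q j) / 2, (X.y * (X.q (j + 1) - X.q j + √2 * X.W) +
    X.y' * (X.p (i + 1) - X.p i + √2 * X.W)) / X.den i j⟩, X.W ^ 2 / X.den i j)

/-- All discs. -/
def D : Set Disc :=
  {d | (∃ i, d = X.L i) ∨ (∃ j, d = X.swap.L j) ∨ ∃ i j, X.p i = X.q j ∧ d = X.Z i j}

lemma swap_Z (i j : ℤ) : X.swap.Z j i = X.Z i j := by
  simp only [Z, den, swap, add_comm]

lemma swap_D : X.swap.D = X.D := by
  ext d
  simp only [D, mem_ofPred_eq, swap_Z]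
  refine or_left_comm.trans (or_congr_right (or_congr_right ?_))
  exact ⟨fun ⟨j, i, h, e⟩ => ⟨i, j, h.symm, e⟩, fun ⟨i, j, h, e⟩ => ⟨j, i, h.symm, e⟩⟩

lemma step (i : ℤ) : X.p i < X.p (i + 1) := X.mp (lt_add_one i)

lemma step' (i : ℤ) : X.p (i - 1) < X.p i := X.mp (sub_one_lt i)

lemma le_of_lt {i j : ℤ} (h : X.p i < X.p j) : X.p (i + 1) ≤ X.p j :=
  X.mp.monotone (X.mp.lt_iff_lt.1 h)

lemma L_pos (i : ℤ) : 0 < (X.L i).2 := half_pos (sub_pos.2 (X.step i))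

lemma tanLL (i : ℤ) : Tan (X.L i) (X.L (i + 1)) :=
  tan_of_sq (add_pos (X.L_pos _) (X.L_pos _)).le (by simp only [L]; ring)

lemma sepLL {i j : ℤ} (h : dist (X.L i).1 (X.L j).1 < (X.L i).2 + (X.L j).2) : X.L i = X.L j := by
  rcases lt_trichotomy i j with h' | rfl | h'
  · exact absurd h (sep_of_re (by simp only [L]; linarith [X.le_of_lt (X.mp h')])).not_gt
  · rfl
  · exact absurd h (sep_of_re' (by simp only [L]; linarith [X.le_of_lt (X.mp h')])).not_gt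

lemma tanLR {i j : ℤ} (h : X.p i < X.q (j + 1)) (h' : X.q j < X.p (i + 1)) :
    Tan (X.L i) (X.swap.L j) :=
  tan_of_sq (add_pos (X.L_pos _) (X.swap.L_pos _)).le (by
    simp only [L, swap]; linear_combination X.hy - X.tan i j h h')

lemma sepLR (i j : ℤ) : (X.L i).2 + (X.swap.L j).2 ≤ dist (X.L i).1 (X.swap.L j).1 := by
  rcases lt_or_ge (X.p i) (X.q (j + 1)) with h | h
  · rcases lt_or_ge (X.q j) (X.p (i + 1)) with h' | h'
    · exact (X.tanLR h h').ge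
    · exact sep_of_re (by simp only [L, swap]; linarith)
  · exact sep_of_re' (by simp only [L, swap]; linarith)

lemma den_pos (i j : ℤ) : 0 < X.den i j := by
  have := sub_pos.2 (X.step i)
  have : 0 < X.q (j + 1) - X.q j := sub_pos.2 (X.swap.step j)
  have := X.hW
  unfold den; positivity

lemma Z_pos (i j : ℤ) : 0 < (X.Z i j).2 := div_pos (pow_pos X.hW 2) (X.den_pos i j)

/-- The relative height of the filling disc. -/
noncomputable def kap (i j : ℤ) : ℝ := (X.p (i + 1) - X.p i + √2 * X.W) / X.den i j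

lemma kap_mem (i j : ℤ) : 0 < X.kap i j ∧ X.kap i j < 1 := by
  have := sub_pos.2 (X.step i)
  have : 0 < X.q (j + 1) - X.q j := sub_pos.2 (X.swap.step j)
  have : 0 < √2 * X.W := mul_pos (by positivity) X.hW
  refine ⟨div_pos (by linarith) (X.den_pos i j), (div_lt_one (X.den_pos i j)).2 ?_⟩
  unfold den; linarith

lemma Z_im (i j : ℤ) : (X.Z i j).1.im = X.y + X.kap i j * (X.y' - X.y) := by
  have := (X.den_pos i j).ne'
  simp only [Z, kap]; field_simp; unfold den; ring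

variable {X}

section Co

variable {i j : ℤ} (h : X.p i = X.q j)
include h

lemma prod_eq : (X.p (i + 1) - X.p i) * (X.q (j + 1) - X.q j) = X.W ^ 2 := by
  have := X.tan i j (h ▸ X.swap.step j) (h ▸ X.step i)
  rwa [← h, show X.q (j + 1) - X.p i = X.q (j + 1) - X.q j by rw [h], ← h] at this ⊢

lemma Z_re : (X.Z i j).1.re = X.p i := by simp [Z, ← h]

lemma tanZ_aux {d : Disc} (h1 : (X.p i - d.1.re) ^ 2 = d.2 ^ 2) (h2 : d.1.im = X.y)
    (h3 : 2 * d.2 = X.p (i + 1) - X.p i) : Tan (X.Z i j) d := by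
  refine tan_of_sq (by linarith [X.Z_pos i j, X.step i]) ?_
  have h0 := (X.den_pos i j).ne'
  have e : (X.p (i + 1) - X.p i + √2 * X.W) ^ 2 = X.W ^ 2 + 2 * d.2 * X.den i j := by
    unfold den
    linear_combination -prod_eq h + X.W ^ 2 * Real.sq_sqrt zero_le_two -
      (X.p (i + 1) - X.p i + √2 * X.W + (X.q (j + 1) - X.q j + √2 * X.W)) * h3
  rw [Z_re h, Z_im, h1, h2, add_sub_cancel_left, mul_pow, X.hy, kap, div_pow, e]
  simp only [Z]; field_simp; ring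

lemma tanZL : Tan (X.Z i j) (X.L i) := tanZ_aux h (by simp only [L]; ring) rfl (by simp only [L]; ring)

lemma tanZL' : Tan (X.Z i j) (X.L (i - 1)) :=
  tanZ_aux h (by simp only [L, sub_add_cancel]; ring) rfl
    (by simp only [L, sub_add_cancel]; linarith [X.sp i j h])

lemma Z_le : (X.Z i j).2 ≤ X.p (i + 1) - X.p i ∧
    4 * (X.Z i j).2 ≤ X.p (i + 1) - X.p i + (X.q (j + 1) - X.q j) := by
  have a := sub_pos.2 (X.step i)
  have b : 0 < X.q (j + 1) - X.q j := sub_pos.2 (X.swap.step j)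
  have c : 0 < √2 * X.W := mul_pos (by positivity) X.hW
  simp only [Z, ← mul_div_assoc, div_le_iff₀ (X.den_pos i j), ← prod_eq h]
  unfold den
  generalize X.p (i + 1) - X.p i = u at *
  generalize X.q (j + 1) - X.q j = v at *
  generalize √2 * X.W = w at *
  constructor <;> nlinarith [sq_nonneg (u - v), mul_pos a c, mul_pos b c]

lemma sepZL (k : ℤ) : (X.Z i j).2 + (X.L k).2 ≤ dist (X.Z i j).1 (X.L k).1 := by
  rcases lt_trichotomy i k with h' | rfl | h'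
  · exact sep_of_re (by rw [Z_re h]; simp only [L]; linarith [X.le_of_lt (X.mp h'), (Z_le h).1])
  · exact (tanZL h).ge
  rcases (Int.le_sub_one_of_lt h').eq_or_lt with rfl | h''
  · exact (tanZL' h).ge
  · exact sep_of_re' (by
      rw [Z_re h]; simp only [L]; linarith [X.le_of_lt (X.mp h''), (Z_le h).1, X.sp i j h])

lemma sepZZ {k l : ℤ} (h' : X.p k = X.q l) (hk : i < k) :
    (X.Z i j).2 + (X.Z k l).2 ≤ dist (X.Z i j).1 (X.Z k l).1 := by
  have a := X.mp hk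
  have b : X.swap.p j < X.swap.p l := by change X.q j < X.q l; rwa [← h, ← h']
  have c : X.q (j + 1) ≤ X.q l := X.swap.le_of_lt b
  have a' : X.p i ≤ X.p (k - 1) := X.mp.monotone (by omega)
  have c' : X.q j ≤ X.q (l - 1) := X.mq.monotone (by have := X.mq.lt_iff_lt.1 b; omega)
  exact sep_of_re (by
    rw [Z_re h, Z_re h']
    linarith [X.le_of_lt a, (Z_le h).2, (Z_le h').2, X.sp k l h', X.sq k l h'])

end Co

variable (X)

lemma L_mem (i : ℤ) : X.L i ∈ X.D := Or.inl ⟨i, rfl⟩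

lemma R_mem (i : ℤ) : X.swap.L i ∈ X.D := Or.inr (Or.inl ⟨i, rfl⟩)

lemma pk : Pk X.D := by
  refine ⟨?_, ?_, ?_⟩
  · rintro d (⟨i, rfl⟩ | ⟨i, rfl⟩ | ⟨i, j, -, rfl⟩)
    exacts [X.L_pos i, X.swap.L_pos i, X.Z_pos i j]
  · refine (((X.fp.union X.fq).image (· / 2)).union ((X.fp.prod X.fq).image fun u =>
      X.W ^ 2 / ((u.1 + √2 * X.W) + (u.2 + √2 * X.W)))).subset ?_
    rintro _ ⟨d, ⟨i, rfl⟩ | ⟨i, rfl⟩ | ⟨i, j, -, rfl⟩, rfl⟩
    exacts [Or.inl ⟨_, Or.inl ⟨i, rfl⟩, rfl⟩, Or.inl ⟨_, Or.inr ⟨i, rfl⟩, rfl⟩,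
      Or.inr ⟨(_, _), ⟨⟨i, rfl⟩, ⟨j, rfl⟩⟩, rfl⟩]
  have fl : ∀ {d e : Disc}, d.2 + e.2 ≤ dist d.1 e.1 → ¬ dist e.1 d.1 < e.2 + d.2 := fun h => by
    rw [dist_comm, add_comm]; exact h.not_gt
  have zr : ∀ {i j}, X.p i = X.q j → ∀ k,
      (X.Z i j).2 + (X.swap.L k).2 ≤ dist (X.Z i j).1 (X.swap.L k).1 := fun {i j} h k =>
    X.swap_Z i j ▸ sepZL (X := X.swap) h.symm k
  rintro d (⟨i, rfl⟩ | ⟨i, rfl⟩ | ⟨i, j, h, rfl⟩) e (⟨k, rfl⟩ | ⟨k, rfl⟩ | ⟨k, l, h', rfl⟩) ho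
  · exact X.sepLL ho
  · exact absurd ho (X.sepLR i k).not_gt
  · exact absurd ho (fl (sepZL h' i))
  · exact absurd ho (fl (X.sepLR k i))
  · exact X.swap.sepLL ho
  · exact absurd ho (fl (zr h' i))
  · exact absurd ho (sepZL h k).not_gt
  · exact absurd ho (zr h k).not_gt
  · rcases lt_trichotomy i k with c | rfl | c
    · exact absurd ho (sepZZ h h' c).not_gt
    · rw [X.mq.injective (h.symm.trans h')]
    · exact absurd ho (fl (sepZZ h' h c))

lemma im_mem {d : Disc} (hd : d ∈ X.D) :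
    ∃ κ, 0 ≤ κ ∧ κ ≤ 1 ∧ d.1.im = X.y + κ * (X.y' - X.y) := by
  rcases hd with ⟨i, rfl⟩ | ⟨i, rfl⟩ | ⟨i, j, -, rfl⟩
  exacts [⟨0, le_rfl, zero_le_one, by simp [L]⟩, ⟨1, zero_le_one, le_rfl, by simp [L, swap]⟩,
    ⟨_, (X.kap_mem i j).1.le, (X.kap_mem i j).2.le, X.Z_im i j⟩]

lemma y_ne : X.y' - X.y ≠ 0 := fun h => by
  have := X.hy
  rw [h] at this; nlinarith [X.hW]

lemma cov_of {a b c : Disc} (ha : a ∈ X.D) (hb : b ∈ X.D) (hc : c ∈ X.D) (h1 : Tan a b)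
    (h2 : Tan b c) (h3 : Tan c a) {z : ℂ} (hT : Tri a.1 b.1 c.1 z)
    (hZ : ∀ i j, X.p i = X.q j → X.Z i j = c ∨
      (X.p i < a.1.re ∧ X.p i < b.1.re ∧ X.p i < c.1.re) ∨
      (a.1.re < X.p i ∧ b.1.re < X.p i ∧ c.1.re < X.p i)) : Cov X.D z := by
  have key : ∀ (Y : Zig), Y.D = X.D → ∀ i, Tri a.1 b.1 c.1 (Y.L i).1 →
      Y.L i = a ∨ Y.L i = b ∨ Y.L i = c := fun Y e i h => by
    have k : ∀ d ∈ X.D, 0 ≤ (Y.y' - Y.y) * (d.1.im - (Y.L i).1.im) := fun d hd => by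
      obtain ⟨κ, k0, -, k2⟩ := Y.im_mem (e ▸ hd)
      rw [k2]; simp only [L]; nlinarith [mul_nonneg k0 (sq_nonneg (Y.y' - Y.y))]
    exact X.pk.extreme ha hb hc h1 h2 h3 (e ▸ Y.L_mem i) h Y.y_ne (k a ha) (k b hb) (k c hc)
  refine ⟨a, ha, b, hb, c, hc, h1, h2, h3, hT, ?_⟩
  rintro d (⟨i, rfl⟩ | ⟨i, rfl⟩ | ⟨i, j, h, rfl⟩) hd
  · exact key X rfl i hd
  · exact key X.swap X.swap_D i hd
  · rcases hZ i j h with e | e | e
    · exact Or.inr (Or.inr e)
    · exact ((Z_re h).not_gt (hd.re_mem (convex_Ioi _) e.1 e.2.1 e.2.2)).elim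
    · exact ((Z_re h).not_lt (hd.re_mem (convex_Iio _) e.1 e.2.1 e.2.2)).elim

/-- The abscissa at relative height `s` of the segment joining two centres. -/
noncomputable def ht (s : ℝ) (i j : ℤ) : ℝ := (1 - s) * (X.L i).1.re + s * (X.swap.L j).1.re

lemma covA {i j : ℤ} (h1 : X.q j < X.p (i + 1)) (h2 : X.p (i + 1) < X.q (j + 1)) {s : ℝ}
    (s0 : 0 ≤ s) {z : ℂ} (hz : z.im = X.y + s * (X.y' - X.y)) (z1 : X.ht s i j ≤ z.re)
    (z2 : z.re ≤ X.ht s (i + 1) j) : Cov X.D z := by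
  have a1 := X.step i
  have a2 := X.step (i + 1)
  refine X.cov_of (X.L_mem i) (X.L_mem (i + 1)) (X.R_mem j) (X.tanLL i)
    (X.tanLR h2 (h1.trans a2)) (X.tanLR (a1.trans h2) h1).symm ?_ fun k l h => Or.inr ?_
  · have hd : 0 < (X.L (i + 1)).1.re - (X.L i).1.re := by simp only [L]; linarith
    have i1 : (X.L i).1.im = X.y := rfl
    have i2 : (X.L (i + 1)).1.im = X.y := rfl
    have i3 : (X.swap.L j).1.im = X.y' := rfl
    unfold ht at z1 z2
    refine ⟨_, _, s, div_nonneg (sub_nonneg.2 z2) hd.le, div_nonneg (sub_nonneg.2 z1) hd.le, s0,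
      by field_simp; ring, Complex.ext ?_ ?_⟩ <;>
    simp only [Complex.add_re, Complex.add_im, Complex.re_ofReal_mul, Complex.im_ofReal_mul,
      i1, i2, i3, hz] <;> field_simp <;> ring
  · simp only [L, swap]
    rcases le_or_gt l j with c | c
    · have b1 := X.mq.monotone c
      have b2 : X.p k ≤ X.p i := X.mp.monotone (by
        have := X.mp.lt_iff_lt.1 (show X.p k < X.p (i + 1) by linarith); omega)
      exact Or.inl ⟨by linarith, by linarith, by linarith⟩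
    · have b1 : X.q (j + 1) ≤ X.q l := X.mq.monotone c
      have b2 := X.le_of_lt (show X.p (i + 1) < X.p k by linarith)
      exact Or.inr ⟨by linarith, by linarith, by linarith⟩

lemma covZ {i j : ℤ} (h : X.p i = X.q j) {s : ℝ} (s0 : 0 ≤ s) (s1 : s ≤ 1) {z : ℂ}
    (hz : z.im = X.y + s * (X.y' - X.y)) (z1 : X.ht s (i - 1) (j - 1) ≤ z.re)
    (z2 : z.re ≤ X.ht s i j) : Cov X.D z := by
  have a1 := X.step i
  have a2 := X.step' i
  have b1 : X.q j < X.q (j + 1) := X.swap.step j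
  have b2 : X.q (j - 1) < X.q j := X.swap.step' j
  have hp := X.sp i j h
  have hq := X.sq i j h
  obtain ⟨k0, k1⟩ := X.kap_mem i j
  obtain ⟨α, hα⟩ : ∃ α, X.p (i + 1) = X.p i + 2 * α := ⟨(X.p (i + 1) - X.p i) / 2, by ring⟩
  obtain ⟨β, hβ⟩ : ∃ β, X.q (j + 1) = X.p i + 2 * β := ⟨(X.q (j + 1) - X.p i) / 2, by ring⟩
  obtain ⟨ξ, hξ⟩ : ∃ ξ, z.re = X.p i + ξ := ⟨z.re - X.p i, by ring⟩
  have α0 : 0 < α := by linarith
  have β0 : 0 < β := by linarith
  have e1 : (X.L i).1 = ⟨X.p i + α, X.y⟩ := Complex.ext (by simp only [L]; linarith) rfl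
  have e2 : (X.L (i - 1)).1 = ⟨X.p i - α, X.y⟩ :=
    Complex.ext (by simp only [L, sub_add_cancel]; linarith) rfl
  have e3 : (X.swap.L j).1 = ⟨X.p i + β, X.y'⟩ :=
    Complex.ext (by simp only [L, swap]; linarith) rfl
  have e4 : (X.swap.L (j - 1)).1 = ⟨X.p i - β, X.y'⟩ :=
    Complex.ext (by simp only [L, swap, sub_add_cancel]; linarith) rfl
  have e5 : (X.Z i j).1 = ⟨X.p i, X.y + X.kap i j * (X.y' - X.y)⟩ :=
    Complex.ext (Z_re h) (X.Z_im i j)
  have e6 : z = ⟨X.p i + ξ, X.y + s * (X.y' - X.y)⟩ := Complex.ext hξ hz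
  simp only [ht, e1, e2, e3, e4, hξ] at z1 z2
  have tR : Tan (X.Z i j) (X.swap.L j) := X.swap_Z i j ▸ tanZL (X := X.swap) h.symm
  have tR' : Tan (X.Z i j) (X.swap.L (j - 1)) := X.swap_Z i j ▸ tanZL' (X := X.swap) h.symm
  have key : ∀ a ∈ X.D, ∀ b ∈ X.D, Tan a b → Tan (X.Z i j) a → Tan (X.Z i j) b →
      (|a.1.re - X.p i| = α ∨ |a.1.re - X.p i| = β) →
      (|b.1.re - X.p i| = α ∨ |b.1.re - X.p i| = β) → Tri a.1 b.1 (X.Z i j).1 z → Cov X.D z := by
    intro a ha b hb t1 t2 t3 ra rb hT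
    refine X.cov_of ha hb (Or.inr (Or.inr ⟨i, j, h, rfl⟩)) t1 t3.symm t2 hT fun k l h' => ?_
    rw [Z_re h]
    rcases lt_trichotomy k i with c | rfl | c
    · have c1 : X.p k ≤ X.p (i - 1) := X.mp.monotone (by omega)
      have c2 : X.q l ≤ X.q (j - 1) := X.mq.monotone (by
        have := X.mq.lt_iff_lt.1 (show X.q l < X.q j by linarith); omega)
      exact Or.inr (Or.inl ⟨by rcases ra with r | r <;> linarith [neg_abs_le (a.1.re - X.p i)],
        by rcases rb with r | r <;> linarith [neg_abs_le (b.1.re - X.p i)], by linarith⟩)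
    · exact Or.inl (by rw [X.mq.injective (h.symm.trans h')])
    · have c1 := X.le_of_lt (X.mp c)
      have c2 : X.q (j + 1) ≤ X.q l := X.swap.le_of_lt (show X.q j < X.q l by linarith)
      exact Or.inr (Or.inr ⟨by rcases ra with r | r <;> linarith [le_abs_self (a.1.re - X.p i)],
        by rcases rb with r | r <;> linarith [le_abs_self (b.1.re - X.p i)], by linarith⟩)
  have r1 : |(X.L i).1.re - X.p i| = α := by simp [e1, α0.le]
  have r2 : |(X.L (i - 1)).1.re - X.p i| = α := by simp [e2, α0.le]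
  have r3 : |(X.swap.L j).1.re - X.p i| = β := by simp [e3, β0.le]
  have r4 : |(X.swap.L (j - 1)).1.re - X.p i| = β := by simp [e4, β0.le]
  rcases le_total (X.kap i j * |ξ|) (α * (X.kap i j - s)) with c1 | c1
  · refine key _ (X.L_mem _) _ (X.L_mem _) (by simpa using X.tanLL (i - 1)) (tanZL' h) (tanZL h)
      (Or.inl r2) (Or.inl r1) ?_
    rw [e1, e2, e5, e6]; exact tri_base α0 k0 s0 c1
  rcases le_total ((1 - X.kap i j) * |ξ|) (β * (s - X.kap i j)) with c2 | c2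
  · refine key _ (X.R_mem _) _ (X.R_mem _) (by simpa using X.swap.tanLL (j - 1)) tR' tR
      (Or.inr r4) (Or.inr r3) ?_
    rw [e3, e4, e5, e6]
    convert tri_base (h := X.p i) (y := X.y') (c := X.y - X.y') (ξ := ξ) β0 (sub_pos.2 k1)
      (sub_nonneg.2 s1) (by linarith) using 2 <;> ring
  rcases le_total 0 ξ with c3 | c3
  · rw [abs_of_nonneg c3] at c1 c2
    refine key _ (X.L_mem _) _ (X.R_mem _) (X.tanLR (by linarith) (by linarith)) (tanZL h) tR
      (Or.inl r1) (Or.inr r3) ?_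
    rw [e1, e3, e5, e6]
    convert tri_side (h := X.p i) (y := X.y) (c := X.y' - X.y) 1 α0 β0 k0 k1 c1 c2
      (by linarith) using 2 <;> ring
  · rw [abs_of_nonpos c3] at c1 c2
    refine key _ (X.L_mem _) _ (X.R_mem _) (X.tanLR (by rw [sub_add_cancel]; linarith)
      (by rw [sub_add_cancel]; linarith)) (tanZL' h) tR' (Or.inl r2) (Or.inr r4) ?_
    rw [e2, e4, e5, e6]
    convert tri_side (h := X.p i) (y := X.y) (c := X.y' - X.y) (-1) α0 β0 k0 k1 c1 c2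
      (by linarith) using 2 <;> ring

lemma cov {s : ℝ} (s0 : 0 ≤ s) (s1 : s ≤ 1) {z : ℂ} (hz : z.im = X.y + s * (X.y' - X.y)) :
    Cov X.D z := by
  have bd : ∀ Y : Zig, ∃ B, ∀ i j, Y.q j < Y.p (i + 1) → (Y.L i).1.re ≤ z.re → i + j ≤ B := by
    intro Y
    obtain ⟨i0, -, h1⟩ := Y.lp z.re
    obtain ⟨j0, -, h2⟩ := Y.lq (Y.p (i0 + 1))
    refine ⟨i0 + j0, fun i j h h' => ?_⟩
    have a : i < i0 + 1 := Y.mp.lt_iff_lt.1 (by simp only [L] at h'; linarith [Y.step i])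
    have b : j < j0 + 1 := Y.mq.lt_iff_lt.1 (by linarith [Y.mp.monotone (show i + 1 ≤ i0 + 1 by omega)])
    omega
  obtain ⟨B, hB⟩ := bd X
  obtain ⟨B', hB'⟩ := bd X.swap
  have s2 := sub_nonneg.2 s1
  obtain ⟨_, ⟨i, j, rfl, o1, o2, h1⟩, hmax⟩ := Int.exists_greatest_of_bdd
    (P := fun n => ∃ i j, i + j = n ∧ X.p i < X.q (j + 1) ∧ X.q j < X.p (i + 1) ∧
      X.ht s i j ≤ z.re) ⟨max B B', by
      rintro _ ⟨i, j, rfl, o1, o2, h⟩
      rcases le_or_gt (X.L i).1.re z.re with c | c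
      · exact le_max_of_le_left (hB i j o2 c)
      · refine le_max_of_le_right (add_comm i j ▸ hB' j i o1 (not_lt.1 fun c' => ?_))
        unfold ht at h
        nlinarith [lt_min c c', mul_le_mul_of_nonneg_left (min_le_left (X.L i).1.re
          (X.swap.L j).1.re) s2, mul_le_mul_of_nonneg_left (min_le_right (X.L i).1.re
          (X.swap.L j).1.re) s0]⟩ (by
      obtain ⟨i1, h1, -⟩ := X.lp z.re
      obtain ⟨j1, h2, -⟩ := X.lq z.re
      obtain ⟨i, a1, a2⟩ := X.lp (min (X.p (i1 - 1)) (X.q (j1 - 1)))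
      obtain ⟨j, b1, b2⟩ := X.lq (min (X.p (i1 - 1)) (X.q (j1 - 1)))
      have c1 := X.le_of_lt ((a1.trans (min_le_left _ _)).trans_lt (X.step' i1))
      have c2 : X.q (j + 1) ≤ X.q j1 :=
        X.swap.le_of_lt ((b1.trans (min_le_right _ _)).trans_lt (X.swap.step' j1))
      have c3 : (X.L i).1.re ≤ z.re := by simp only [L]; linarith [X.step i]
      have c4 : (X.swap.L j).1.re ≤ z.re := by simp only [L, swap]; linarith
      refine ⟨_, i, j, rfl, a1.trans_lt b2, b1.trans_lt a2, ?_⟩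
      unfold ht
      nlinarith [mul_le_mul_of_nonneg_left c3 s2, mul_le_mul_of_nonneg_left c4 s0])
  have nx : ∀ k l, i + j < k + l → X.p k < X.q (l + 1) → X.q l < X.p (k + 1) →
      z.re ≤ X.ht s k l := fun k l h a b =>
    le_of_not_ge fun c => (hmax _ ⟨k, l, rfl, a, b, c⟩).not_gt h
  rcases lt_trichotomy (X.p (i + 1)) (X.q (j + 1)) with c | c | c
  · exact X.covA o2 c s0 hz h1 (nx _ _ (by omega) c (o2.trans (X.step _)))
  · exact X.covZ c s0 s1 hz (by simpa using h1)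
      (nx _ _ (by omega) (c ▸ X.swap.step _) (c ▸ X.step _))
  · have hs : ∀ k l, X.swap.ht (1 - s) l k = X.ht s k l := fun k l => by
      simp only [ht, sub_sub_cancel]; exact add_comm _ _
    exact X.swap_D ▸ X.swap.covA o1 c s2 (by rw [hz]; simp only [swap]; ring) (hs _ _ ▸ h1)
      (hs _ _ ▸ nx _ _ (by omega) (o1.trans (X.swap.step _)) c)

theorem strip (h : X.y < X.y') : Strip X.D X.y X.y' := by
  have h' := sub_pos.2 h
  refine ⟨X.pk, fun d hd => ?_, fun z z1 z2 _ => X.cov (s := (z.im - X.y) / (X.y' - X.y))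
    (div_nonneg (by linarith) h'.le) ((div_le_one h').2 (by linarith)) (by field_simp; ring)⟩
  obtain ⟨κ, k0, k1, e⟩ := X.im_mem hd
  rw [e]
  constructor <;> nlinarith

lemma wall {K : Set Disc} (h : ∀ i, X.L i ∈ K) : Wall K X.y := by
  intro z hz
  obtain ⟨i, h1, h2⟩ := X.lp z.re
  refine ⟨_, h i, rfl, le_of_sq_le_sq ?_ (X.L_pos i).le⟩
  rw [dist_sq, hz]; simp only [L]
  nlinarith [mul_nonneg (sub_nonneg.2 h1) (sub_nonneg.2 h2.le)]

lemma L_add {K : ℤ} {T : ℝ} (hp : ∀ i, X.p (i + K) = X.p i + T) (i : ℤ) :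
    X.L (i + K) = ((X.L i).1 + T, (X.L i).2) := by
  simp only [L, add_right_comm i K 1, hp]
  exact Prod.ext (Complex.ext (by simp; ring) (by simp)) (by simp)

lemma mem_Per {K N : ℤ} {T : ℝ} (hp : ∀ i, X.p (i + K) = X.p i + T)
    (hq : ∀ i, X.q (i + N) = X.q i + T) : (T : ℂ) ∈ Per X.D := by
  have key : ∀ {K N : ℤ} {T : ℝ}, (∀ i, X.p (i + K) = X.p i + T) →
      (∀ i, X.q (i + N) = X.q i + T) → ∀ d ∈ X.D, (d.1 + T, d.2) ∈ X.D := by
    rintro K N T hp hq d (⟨i, rfl⟩ | ⟨i, rfl⟩ | ⟨i, j, h, rfl⟩)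
    · exact X.L_add hp i ▸ X.L_mem _
    · exact X.swap.L_add hq i ▸ X.R_mem _
    · refine Or.inr (Or.inr ⟨i + K, j + N, by rw [hp, hq, h], ?_⟩)
      simp only [Z, den, add_right_comm i K 1, add_right_comm j N 1, hp, hq, add_sub_add_right_eq_sub]
      exact Prod.ext (Complex.ext (by simp; ring) (by simp)) rfl
  refine fun d => ⟨fun h => ?_, key hp hq d⟩
  simpa using key (K := -K) (N := -N) (T := -T) (fun i => by rw [← sub_add_cancel i K, hp]; simp [sub_eq_add_neg])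
    (fun i => by rw [← sub_add_cancel i N, hq]; simp [sub_eq_add_neg]) _ h

end Zig

end Pool.Agent.MP_3b6db3_gt.H5
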